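import Pool.Agent.H8.FJ.Linear

/-!
# Automatic automorphisms of at most linear activity
-/

namespace Pool.Agent.H8.FJ

open Classical

variable {X : Type}

/-! ### Rays whose sections avoid a set -/

theorem exists_ray {P : Set (TAut X)} (hpar : ∀ g : TAut X, (∀ x, g.sec [x] ∈ P) → g ∈ P)
    {g : TAut X} (hg : g ∉ P) : ∃ ξ : ℕ → X, ∀ n, g.sec (pre ξ n) ∉ P := by
  have h : ∀ s : {s : TAut X // s ∉ P}, ∃ x, s.1.sec [x] ∉ P := by
    intro s
    by_contra hcon
    push Not at hcon
    exact s.2 (hpar s.1 hcon)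
  choose f hf using h
  let F : {s : TAut X // s ∉ P} → {s : TAut X // s ∉ P} := fun s => ⟨s.1.sec [f s], hf s⟩
  let ξ : ℕ → X := fun n => f (F^[n] ⟨g, hg⟩)
  have key : ∀ n, g.sec (pre ξ n) = (F^[n] ⟨g, hg⟩).1 := by
    intro n
    induction n with
    | zero => rfl
    | succ n ih =>
      rw [pre_succ_last, ← TAut.sec_sec, ih, Function.iterate_succ_apply']
  exact ⟨ξ, fun n => by rw [key]; exact (F^[n] ⟨g, hg⟩).2⟩

theorem ray_through {P : Set (TAut X)} (hsec : ∀ g ∈ P, ∀ x, g.sec [x] ∈ P)
    (hpar : ∀ g : TAut X, (∀ x, g.sec [x] ∈ P) → g ∈ P) {g : TAut X} {v : List X}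
    (hv : g.sec v ∉ P) : ∃ ξ : ℕ → X, pre ξ v.length = v ∧ ∀ n, g.sec (pre ξ n) ∉ P := by
  induction v generalizing g with
  | nil =>
    obtain ⟨ξ, hξ⟩ := exists_ray hpar hv
    exact ⟨ξ, rfl, hξ⟩
  | cons x v ih =>
    rw [TAut.sec_cons] at hv
    obtain ⟨ξ, h1, h2⟩ := ih hv
    refine ⟨consRay x ξ, ?_, ?_⟩
    · rw [List.length_cons, pre_consRay, h1]
    · intro n
      cases n with
      | zero =>
        intro h
        exact h2 0 (hsec g h x)
      | succ n =>
        rw [pre_consRay, TAut.sec_cons]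
        exact h2 n

/-- There is a cycle through `q` and another path of the same length to a state outside `P`. -/
def Split (P : Set (TAut X)) (q : TAut X) : Prop :=
  ∃ u w : List X, u.length = w.length ∧ u ≠ w ∧ q.sec u = q ∧ q.sec w ∉ P

theorem Automatic.sec {g : TAut X} (hg : Automatic g) (v : List X) : Automatic (g.sec v) := by
  refine Set.Finite.subset hg ?_
  rintro s ⟨w, rfl⟩
  exact ⟨v ++ w, (TAut.sec_sec g v w).symm⟩

theorem period_unique {P : Set (TAut X)} {s : TAut X} (hs : ¬ Split P s) {u : List X}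
    (hu : s.sec u = s) (t : ℕ) :
    ∀ ζ ζ' : ℕ → X, (∀ n, s.sec (pre ζ n) ∉ P) → (∀ n, s.sec (pre ζ' n) ∉ P) →
      pre ζ (t * u.length) = pre ζ' (t * u.length) := by
  have h1 : ∀ ζ : ℕ → X, (∀ n, s.sec (pre ζ n) ∉ P) → pre ζ u.length = u := by
    intro ζ hζ
    by_contra hne
    exact hs ⟨u, pre ζ u.length, (length_pre _ _).symm, Ne.symm hne, hu, hζ _⟩
  have h2 : ∀ ζ : ℕ → X, (∀ n, s.sec (pre ζ n) ∉ P) →
      ∀ n, s.sec (pre (shift^[u.length] ζ) n) ∉ P := by
    intro ζ hζ n
    have h3 := hζ (u.length + n)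
    rw [pre_add, ← TAut.sec_sec, h1 ζ hζ, hu] at h3
    exact h3
  induction t with
  | zero => intro ζ ζ' _ _; rw [Nat.zero_mul]; rfl
  | succ t ih =>
    intro ζ ζ' hζ hζ'
    rw [Nat.succ_mul, Nat.add_comm, pre_add, pre_add, h1 ζ hζ, h1 ζ' hζ',
      ih _ _ (h2 ζ hζ) (h2 ζ' hζ')]

theorem ray_unique {P : Set (TAut X)} {s : TAut X} (hs : ¬ Split P s) {u : List X}
    (hu : s.sec u = s) (hu0 : 0 < u.length) {ζ ζ' : ℕ → X} (hζ : ∀ n, s.sec (pre ζ n) ∉ P)
    (hζ' : ∀ n, s.sec (pre ζ' n) ∉ P) : ζ = ζ' := by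
  apply pre_inj
  intro n
  have h1 := period_unique hs hu n ζ ζ' hζ hζ'
  have h2 : n ≤ n * u.length := Nat.le_mul_of_pos_right n hu0
  rw [← pre_take ζ h2, ← pre_take ζ' h2, h1]

theorem finite_rays [Finite X] {P : Set (TAut X)} {g : TAut X} (hg : Automatic g)
    (hs : ∀ v, ¬ Split P (g.sec v)) : {ξ : ℕ → X | ∀ n, g.sec (pre ξ n) ∉ P}.Finite := by
  have hfin := hg.to_subtype
  let Q := {s : TAut X // s ∈ {s : TAut X | ∃ v, g.sec v = s}}
  have hQ : Finite Q := hfin
  let N := Nat.card Q
  have hinj : Set.InjOn (fun ξ => pre ξ N) {ξ : ℕ → X | ∀ n, g.sec (pre ξ n) ∉ P} := by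
    intro ξ hξ η hη h
    have h0 : pre ξ N = pre η N := h
    obtain ⟨i, j, hij, hj, he⟩ : ∃ i j, i < j ∧ j ≤ N ∧ g.sec (pre ξ i) = g.sec (pre ξ j) := by
      have hcard : Nat.card Q < Nat.card (Fin (N + 1)) := by
        rw [Nat.card_eq_fintype_card (α := Fin (N + 1)), Fintype.card_fin]
        exact Nat.lt_succ_self _
      let f : Fin (N + 1) → Q := fun i => ⟨g.sec (pre ξ i), pre ξ i, rfl⟩
      have hni : ¬ Function.Injective f := by
        intro hf
        have := Nat.card_le_card_of_injective f hf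
        omega
      rw [Function.Injective] at hni
      push Not at hni
      obtain ⟨a, b, hab, hne⟩ := hni
      have hab' : g.sec (pre ξ a) = g.sec (pre ξ b) := congrArg (fun z : Q => z.1) hab
      rcases lt_or_gt_of_ne (fun h => hne (Fin.ext h) : (a : ℕ) ≠ b) with hlt | hlt
      · exact ⟨a, b, hlt, by have := b.2; omega, hab'⟩
      · exact ⟨b, a, hlt, by have := a.2; omega, hab'.symm⟩
    obtain ⟨p, rfl⟩ := Nat.exists_eq_add_of_lt hij
    have hpi : pre ξ i = pre η i := by
      rw [← pre_take ξ (show i ≤ N by omega), ← pre_take η (show i ≤ N by omega), h0]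
    have hu : (g.sec (pre ξ i)).sec (pre (shift^[i] ξ) (p + 1)) = g.sec (pre ξ i) := by
      rw [TAut.sec_sec, ← pre_add, ← Nat.add_assoc, ← he]
    have h1 : shift^[i] ξ = shift^[i] η := by
      refine ray_unique (hs (pre ξ i)) hu (by rw [length_pre]; omega) ?_ ?_
      · intro n
        rw [TAut.sec_sec, ← pre_add]
        exact hξ _
      · intro n
        rw [hpi, TAut.sec_sec, ← pre_add]
        exact hη _
    apply pre_inj
    intro n
    rcases le_or_gt n i with hn | hn
    · rw [← pre_take ξ hn, ← pre_take η hn, hpi]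
    · obtain ⟨k, rfl⟩ := Nat.exists_eq_add_of_lt hn
      rw [Nat.add_assoc, pre_add ξ i (k + 1), pre_add η i (k + 1), hpi, h1]
  refine Set.Finite.of_finite_image ?_ hinj
  refine (List.finite_length_eq X N).subset ?_
  rintro _ ⟨ξ, _, rfl⟩
  exact length_pre _ _

/-! ### Activity -/

theorem finite_active [Finite X] (g : TAut X) (n : ℕ) :
    {v : List X | v.length = n ∧ g.sec v ≠ 1}.Finite :=
  (List.finite_length_eq X n).subset fun _ hv => hv.1

theorem activity_sec [Finite X] (g : TAut X) (u : List X) (n : ℕ) :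
    activity (g.sec u) n ≤ activity g (n + u.length) := by
  unfold activity
  rw [← Set.ncard_image_of_injective _ (List.append_right_injective u)]
  apply Set.ncard_le_ncard _ (finite_active _ _)
  rintro _ ⟨v, ⟨hv, hv2⟩, rfl⟩
  refine ⟨by rw [List.length_append, hv, Nat.add_comm], ?_⟩
  rw [← TAut.sec_sec]
  exact hv2

theorem activity_add [Finite X] (g : TAut X) {u w : List X} (huw : u.length = w.length)
    (hne : u ≠ w) (n : ℕ) :
    activity (g.sec u) n + activity (g.sec w) n ≤ activity g (n + u.length) := by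
  unfold activity
  rw [← Set.ncard_image_of_injective {v : List X | v.length = n ∧ (g.sec u).sec v ≠ 1}
      (List.append_right_injective u),
    ← Set.ncard_image_of_injective {v : List X | v.length = n ∧ (g.sec w).sec v ≠ 1}
      (List.append_right_injective w),
    ← Set.ncard_union_eq _ ((finite_active _ _).image _) ((finite_active _ _).image _)]
  · apply Set.ncard_le_ncard _ (finite_active _ _)
    rintro _ (⟨v, ⟨hv, hv2⟩, rfl⟩ | ⟨v, ⟨hv, hv2⟩, rfl⟩)
    · refine ⟨by rw [List.length_append, hv, Nat.add_comm], ?_⟩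
      rw [← TAut.sec_sec]
      exact hv2
    · refine ⟨by rw [List.length_append, hv, Nat.add_comm, huw], ?_⟩
      rw [← TAut.sec_sec]
      exact hv2
  · rw [Set.disjoint_left]
    rintro _ ⟨v, _, rfl⟩ ⟨v', _, h⟩
    exact hne (List.append_inj h huw.symm).1.symm

theorem activity_pos [Finite X] {g : TAut X} (hg : g ∉ Fin' X) (n : ℕ) : 1 ≤ activity g n := by
  have h1 : g ∉ finD X n := fun h => hg ⟨n, h⟩
  rw [mem_finD] at h1
  push Not at h1
  obtain ⟨v, hv, hv2⟩ := h1
  rw [Nat.one_le_iff_ne_zero]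
  unfold activity
  refine (Set.ncard_pos (finite_active g n)).2 ⟨v.take n, by rw [List.length_take]; omega, ?_⟩ |>.ne'
  intro h
  apply hv2
  have h2 : g.sec (v.take n) (v.drop n) = 1 := by rw [h]; rfl
  rwa [TAut.sec_apply, List.take_append_drop] at h2

theorem growth0 [Finite X] {q : TAut X} {u w : List X} (huw : u.length = w.length) (hne : u ≠ w)
    (hu : q.sec u = q) (hw : q.sec w ∉ Fin' X) (k : ℕ) :
    ∀ n, u.length * k ≤ n → k ≤ activity q n := by
  induction k with
  | zero => intro n _; exact Nat.zero_le _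
  | succ k ih =>
    intro n hn
    rw [Nat.mul_succ] at hn
    obtain ⟨m, rfl⟩ : ∃ m, n = m + u.length := ⟨n - u.length, by omega⟩
    have h1 := activity_add q huw hne m
    rw [hu] at h1
    have h2 := activity_pos hw m
    have h3 := ih m (by omega)
    omega

/-- Automatic automorphisms without split sections are of bounded type. -/
theorem BT_of_not_split [Finite X] [Nonempty X] {g : TAut X} (hg : Automatic g)
    (hs : ∀ v, ¬ Split (Fin' X : Set (TAut X)) (g.sec v)) : g ∈ BT X := by
  obtain ⟨x0⟩ := ‹Nonempty X›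
  have hR := finite_rays hg hs
  obtain ⟨D, hD⟩ : ∃ D, ∀ v, g.sec v ∈ Fin' X → g.sec v ∈ finD X D := by
    have h1 : ∀ s : TAut X, ∃ D, s ∈ Fin' X → s ∈ finD X D := by
      intro s
      by_cases hs : s ∈ Fin' X
      · obtain ⟨D, hD⟩ := hs
        exact ⟨D, fun _ => hD⟩
      · exact ⟨0, fun h => absurd h hs⟩
    choose f hf using h1
    obtain ⟨D, hD⟩ := (Set.Finite.image f hg).bddAbove
    exact ⟨D, fun v hv => finD_mono (hD ⟨g.sec v, ⟨v, rfl⟩, rfl⟩) (hf _ hv)⟩
  refine ⟨D, {ξ : ℕ → X | ∀ n, g.sec (pre ξ n) ∉ (Fin' X : Set (TAut X))} ∪ {fun _ => x0},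
    hR.union (Set.finite_singleton _), ?_⟩
  intro v hv
  by_cases hv1 : g.sec v ∈ Fin' X
  · have hex : ∃ n, g.sec (v.take n) ∈ Fin' X := ⟨v.length, by rwa [List.take_length]⟩
    obtain ⟨n, hn1, hn2⟩ : ∃ n, g.sec (v.take n) ∈ Fin' X ∧
        ∀ m < n, g.sec (v.take m) ∉ Fin' X :=
      ⟨Nat.find hex, Nat.find_spec hex, fun m hm => Nat.find_min hex hm⟩
    have hlen : (v.drop n).length < D := by
      by_contra hcon
      have h1 := hD _ hn1 (v.drop n) (not_lt.1 hcon)
      rw [TAut.sec_apply, List.take_append_drop] at h1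
      exact hv h1
    rw [List.length_drop] at hlen
    cases n with
    | zero => exact ⟨_, Or.inr rfl, 0, v, rfl, by omega⟩
    | succ m =>
      obtain ⟨ξ, h1, h2⟩ := ray_through (P := (Fin' X : Set (TAut X))) Fin'_sec
        (fun _ => Fin'_of_sec) (hn2 m (Nat.lt_succ_self m))
      refine ⟨ξ, Or.inl h2, (v.take m).length, v.drop m, ?_, by rw [List.length_drop]; omega⟩
      rw [h1, List.take_append_drop]
  · obtain ⟨ξ, h1, h2⟩ := ray_through (P := (Fin' X : Set (TAut X))) Fin'_sec
      (fun _ => Fin'_of_sec) hv1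
    exact ⟨ξ, Or.inl h2, v.length, [], by rw [h1, List.append_nil], Nat.zero_le _⟩

theorem growth_of_not_BT [Finite X] [Nonempty X] {g : TAut X} (hg : Automatic g)
    (h : g ∉ BT X) : ∃ p c, ∀ k n, p * k + c ≤ n → k ≤ activity g n := by
  have h1 : ∃ v, Split (Fin' X : Set (TAut X)) (g.sec v) := by
    by_contra hcon
    push Not at hcon
    exact h (BT_of_not_split hg hcon)
  obtain ⟨v, u, w, huw, hne, hu, hw⟩ := h1
  refine ⟨u.length, v.length, fun k n hn => ?_⟩
  obtain ⟨m, rfl⟩ : ∃ m, n = m + v.length := ⟨n - v.length, by omega⟩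
  exact (growth0 huw hne hu hw k m (by omega)).trans (activity_sec g v m)

theorem LinearActivity.sec [Finite X] {g : TAut X} (hg : LinearActivity g) (v : List X) :
    LinearActivity (g.sec v) := by
  obtain ⟨C, hC⟩ := hg
  refine ⟨C * (v.length + 1), fun n => (activity_sec g v n).trans ((hC _).trans ?_)⟩
  rw [Nat.mul_assoc]
  apply Nat.mul_le_mul_left
  nlinarith

theorem not_split_of_linear [Finite X] [Nonempty X] {q : TAut X} (hq : Automatic q)
    (hlin : LinearActivity q) : ¬ Split (BT X : Set (TAut X)) q := by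
  rintro ⟨u, w, huw, hne, hu, hw⟩
  obtain ⟨C, hC⟩ := hlin
  obtain ⟨p, c, h⟩ := growth_of_not_BT (hq.sec w) hw
  set K := C * u.length + 1 with hK
  set N := p * K + c with hN
  have h1 : ∀ j, j * K ≤ activity q (N + j * u.length) := by
    intro j
    induction j with
    | zero => simp
    | succ j ih =>
      have h2 := activity_add q huw hne (N + j * u.length)
      rw [hu] at h2
      have h3 := h K (N + j * u.length) (by omega)
      have h4 : N + j * u.length + u.length = N + (j + 1) * u.length := by ring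
      rw [h4] at h2
      calc (j + 1) * K = j * K + K := by ring
        _ ≤ _ := by omega
  have h2 := h1 (C * (N + 1) + 1)
  have h3 := hC (N + (C * (N + 1) + 1) * u.length)
  have h4 := h2.trans h3
  rw [hK] at h4
  nlinarith

/-- Automatic automorphisms of at most linear activity are of linear type. -/
theorem LinearType.of_automatic [Finite X] [Nonempty X] {g : TAut X} (hg : Automatic g)
    (hlin : LinearActivity g) : LinearType g := by
  obtain ⟨x0⟩ := ‹Nonempty X›
  have : Nonempty X := ⟨x0⟩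
  have hR := finite_rays (P := (BT X : Set (TAut X))) hg
    (fun v => not_split_of_linear (hg.sec v) (hlin.sec v))
  refine ⟨{ξ : ℕ → X | ∀ n, g.sec (pre ξ n) ∉ (BT X : Set (TAut X))} ∪ {fun _ => x0},
    hR.union (Set.finite_singleton _), ⟨_, Or.inr rfl⟩,
    {s : TAut X | ∃ v, g.sec v = s} ∩ {s | BoundedType s}, Set.Finite.inter_of_left hg _, ?_, ?_⟩
  · rintro b ⟨_, hb⟩
    exact hb
  · intro ξ hξ k x h
    refine ⟨⟨_, rfl⟩, ?_⟩
    by_contra hcon
    obtain ⟨η, h1, h2⟩ := ray_through (P := (BT X : Set (TAut X))) BT_sec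
      (fun _ => BT_of_sec) hcon
    rw [List.length_append, length_pre, List.length_singleton] at h1
    exact h η (Or.inl h2) h1

/-- Automorphisms of bounded type are of linear type. -/
theorem LinearType.of_boundedType [Finite X] [Nonempty X] {g : TAut X} (hg : BoundedType g) :
    LinearType g := by
  obtain ⟨x0⟩ := ‹Nonempty X›
  obtain ⟨D, R0, hR0, hg0⟩ := hg
  set R := insert (fun _ => x0) R0 with hRdef
  have hR : R.Finite := hR0.insert _
  have hg1 : Near D R g := hg0.mono le_rfl (Set.subset_insert _ _)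
  obtain ⟨l, hl⟩ := exists_separating hR
  have hl' : ∀ l' ≥ l, ∀ ξ ∈ R, ∀ η ∈ R, pre ξ l' = pre η l' → ξ = η := by
    intro l' hl' ξ hξ η hη h
    apply hl ξ hξ η hη
    rw [← pre_take ξ hl', ← pre_take η hl', h]
  refine ⟨R, hR, ⟨_, Set.mem_insert _ _⟩,
    (finD X D : Set (TAut X)) ∪ (fun v => g.sec v) '' {v : List X | v.length < l + D},
    (Set.finite_coe_iff.1 (finite_finD D)).union ((List.finite_length_lt X _).image _), ?_, ?_⟩
  · rintro b (hb | ⟨v, _, rfl⟩)
    · exact Fin'_le_BT ⟨D, hb⟩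
    · exact sec_mem BT_sec (show g ∈ BT X from ⟨D, R0, hR0, hg0⟩) v
  · intro ξ hξ k x h
    rcases lt_or_ge (k + 1) (l + D) with hk | hk
    · refine Or.inr ⟨_, ?_, rfl⟩
      show (pre ξ k ++ [x]).length < l + D
      rw [List.length_append, length_pre]
      exact hk
    · left
      obtain ⟨j, hj⟩ := Nat.exists_eq_add_of_le hk
      obtain ⟨_, h2⟩ := hg1.level (hl' (l + j) (Nat.le_add_right _ _))
      apply h2
      · rw [List.length_append, length_pre, List.length_singleton]
        omega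
      · intro η hη he
        apply h η hη
        rw [he]
        congr 1
        omega

/-- Groups generated by automorphisms of linear type. -/
theorem FJClass.of_generators [Finite X] {K : Subgroup (TAut X)}
    (hK : K ≤ Subgroup.closure
      {g | BoundedType g ∨ LinearType g ∨ (Automatic g ∧ LinearActivity g)}) : FJClass K := by
  rcases isEmpty_or_nonempty X with hX | hX
  · have : Subsingleton (TAut X) := by
      constructor
      intro g h
      ext v x
      exact hX.elim x
    exact .finite _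
  · refine FJClass.of_linearType (S := _) ?_ hK
    rintro g (hg | hg | ⟨h1, h2⟩)
    · exact .of_boundedType hg
    · exact hg
    · exact .of_automatic h1 h2

end Pool.Agent.H8.FJ
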