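import Pool.Agent.H8.FJ.Loc

/-!
# Automorphisms of bounded type
-/

namespace Pool.Agent.H8.FJ

open Classical

variable {X : Type}

theorem Near.mono {D D' : ℕ} {R R' : Set (ℕ → X)} (hD : D ≤ D') (hR : R ⊆ R') {g : TAut X}
    (h : Near D R g) : Near D' R' g := by
  intro v hv
  obtain ⟨ξ, hξ, k, w, h1, h2⟩ := h v hv
  exact ⟨ξ, hR hξ, k, w, h1, h2.trans hD⟩

/-- The group of the automorphisms of bounded type. -/
def BT (X : Type) : Subgroup (TAut X) where
  carrier := {g | BoundedType g}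
  one_mem' := ⟨0, ∅, Set.finite_empty, fun _ hv => absurd rfl hv⟩
  mul_mem' := by
    rintro g h ⟨D, R, hR, hg⟩ ⟨D', R', hR', hh⟩
    refine ⟨max D D', R' ∪ actRay h ⁻¹' R, hR'.union (hR.preimage (actRay_injective h).injOn), ?_⟩
    intro v hv
    rw [TAut.mul_apply] at hv
    by_cases h1 : h v = 1
    · rw [h1, mul_one] at hv
      obtain ⟨ξ, hξ, k, w, h2, h3⟩ := hg _ hv
      have h4 : actRay h (actRay h⁻¹ ξ) = ξ := by rw [← actRay_mul, mul_inv_cancel, actRay_one]
      rw [← h4] at h2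
      obtain ⟨w', h5, h6⟩ := actInv_pre_append h2
      refine ⟨actRay h⁻¹ ξ, Or.inr ?_, k, w', h5, h6.trans_le (h3.trans (le_max_left _ _))⟩
      rw [Set.mem_preimage, h4]
      exact hξ
    · obtain ⟨ξ, hξ, k, w, h2, h3⟩ := hh _ h1
      exact ⟨ξ, Or.inl hξ, k, w, h2, h3.trans (le_max_right _ _)⟩
  inv_mem' := by
    rintro g ⟨D, R, hR, hg⟩
    refine ⟨D, actRay g '' R, hR.image _, ?_⟩
    intro v hv
    rw [TAut.inv_apply] at hv
    have hv' : g (g.actInv v) ≠ 1 := fun h => hv (by rw [h, inv_one])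
    obtain ⟨ξ, hξ, k, w, h2, h3⟩ := hg _ hv'
    refine ⟨actRay g ξ, ⟨ξ, hξ, rfl⟩, k, (g.sec (pre ξ k)).act w, ?_,
      by rw [TAut.length_act]; exact h3⟩
    rw [← act_pre, ← TAut.act_append, ← h2, TAut.act_actInv]

theorem mem_BT {g : TAut X} : g ∈ BT X ↔ BoundedType g := Iff.rfl

theorem BT_of_Dir {D : ℕ} {ξ : ℕ → X} {g : TAut X} (h : Dir D ξ g) : g ∈ BT X := by
  refine ⟨D, {ξ}, Set.finite_singleton _, fun v hv => ?_⟩
  obtain ⟨k, w, h1, h2⟩ := h v hv
  exact ⟨ξ, rfl, k, w, h1, h2⟩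

theorem Fin'_le_BT : Fin' X ≤ BT X := by
  rintro g ⟨D, hg⟩
  rcases isEmpty_or_nonempty X with hX | ⟨⟨x0⟩⟩
  · have : g = 1 := by
      ext v x
      exact hX.elim x
    rw [this]
    exact (BT X).one_mem
  · refine BT_of_Dir (D := D) (ξ := fun _ => x0) (fun v hv => ⟨0, v, rfl, ?_⟩)
    by_contra h
    exact hv (hg v (by omega))

theorem BT_sec : ∀ g ∈ BT X, ∀ x, g.sec [x] ∈ BT X := by
  rintro g ⟨D, R, hR, hg⟩ x
  refine ⟨D, R ∪ shift '' R, hR.union (hR.image _), ?_⟩
  intro v hv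
  rw [TAut.sec_apply] at hv
  obtain ⟨ξ, hξ, k, w, h1, h2⟩ := hg _ hv
  cases k with
  | zero =>
    refine ⟨ξ, Or.inl hξ, 0, v, rfl, ?_⟩
    have := congrArg List.length h1
    simp at this
    omega
  | succ k =>
    refine ⟨shift ξ, Or.inr ⟨ξ, hξ, rfl⟩, k, w, ?_, h2⟩
    rw [pre_succ] at h1
    exact (List.cons.inj h1).2

/-- Adding a letter to a ray. -/
def consRay (x : X) (ξ : ℕ → X) : ℕ → X
  | 0 => x
  | n + 1 => ξ n

theorem pre_consRay (x : X) (ξ : ℕ → X) (k : ℕ) : pre (consRay x ξ) (k + 1) = x :: pre ξ k := rfl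

/-- If the sections on the first level are of bounded type, then so is the automorphism. -/
theorem BT_of_sec [Finite X] {g : TAut X} (h : ∀ x, g.sec [x] ∈ BT X) : g ∈ BT X := by
  rcases isEmpty_or_nonempty X with hX | ⟨⟨x0⟩⟩
  · have : g = 1 := by
      ext v x
      exact hX.elim x
    rw [this]
    exact (BT X).one_mem
  · choose D R hR hn using h
    obtain ⟨D', hD'⟩ := (Set.finite_range D).bddAbove
    refine ⟨D', {fun _ => x0} ∪ ⋃ x, consRay x '' R x,
      (Set.finite_singleton _).union (Set.finite_iUnion (fun x => (hR x).image _)), ?_⟩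
    intro v hv
    cases v with
    | nil => exact ⟨_, Or.inl rfl, 0, [], rfl, Nat.zero_le _⟩
    | cons x v =>
      obtain ⟨ξ, hξ, k, w, h1, h2⟩ := hn x v hv
      refine ⟨consRay x ξ, Or.inr (Set.mem_iUnion.2 ⟨x, ξ, hξ, rfl⟩), k + 1, w, ?_,
        h2.trans (hD' ⟨x, rfl⟩)⟩
      rw [pre_consRay, h1]; rfl

theorem Fin'_of_sec [Finite X] {g : TAut X} (h : ∀ x, g.sec [x] ∈ Fin' X) : g ∈ Fin' X := by
  choose D hD using h
  obtain ⟨D', hD'⟩ := (Set.finite_range D).bddAbove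
  refine ⟨D' + 1, ?_⟩
  intro v hv
  cases v with
  | nil => simp at hv
  | cons x v =>
    have h1 : D x ≤ D' := hD' ⟨x, rfl⟩
    have h2 : D x ≤ v.length := by
      rw [List.length_cons] at hv
      omega
    exact hD x v h2

/-- Finitely many rays are separated at some level. -/
theorem exists_separating {R : Set (ℕ → X)} (hR : R.Finite) :
    ∃ l, ∀ ξ ∈ R, ∀ η ∈ R, pre ξ l = pre η l → ξ = η := by
  have h : ∀ p : (ℕ → X) × (ℕ → X), ∃ n, p.1 ≠ p.2 → pre p.1 n ≠ pre p.2 n := by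
    intro p
    by_cases hp : p.1 = p.2
    · exact ⟨0, fun h => absurd hp h⟩
    · by_contra hcon
      push Not at hcon
      exact hp (pre_inj fun n => (hcon n).2)
  choose f hf using h
  obtain ⟨l, hl⟩ := ((hR.prod hR).image f).bddAbove
  refine ⟨l, fun ξ hξ η hη h => ?_⟩
  by_contra hne
  apply hf (ξ, η) hne
  have h1 : f (ξ, η) ≤ l := hl ⟨(ξ, η), ⟨hξ, hη⟩, rfl⟩
  show pre ξ (f (ξ, η)) = pre η (f (ξ, η))
  rw [← pre_take ξ h1, ← pre_take η h1, h]

/-- The sections at a deep level of an automorphism of bounded type. -/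
theorem Near.level {D : ℕ} {R : Set (ℕ → X)} {g : TAut X} (hg : Near D R g) {l : ℕ}
    (hl : ∀ ξ ∈ R, ∀ η ∈ R, pre ξ l = pre η l → ξ = η) :
    (∀ ξ ∈ R, Dir D (shift^[l + D] ξ) (g.sec (pre ξ (l + D)))) ∧
    (∀ v : List X, v.length = l + D → (∀ ξ ∈ R, v ≠ pre ξ (l + D)) → g.sec v ∈ finD X D) := by
  constructor
  · intro ξ hξ u hu
    rw [TAut.sec_apply] at hu
    obtain ⟨η, hη, k, w, h1, h2⟩ := hg _ hu
    have hlen := congrArg List.length h1
    rw [List.length_append, List.length_append, length_pre, length_pre] at hlen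
    have hk : l ≤ k := by omega
    have hηξ : ξ = η := by
      apply hl ξ hξ η hη
      have h3 := congrArg (List.take l) h1
      rw [List.take_append_of_le_length (by rw [length_pre]; omega),
        List.take_append_of_le_length (by rw [length_pre]; omega), pre_take _ hk,
        pre_take _ (by omega)] at h3
      exact h3
    subst hηξ
    rcases le_or_gt (l + D) k with hk' | hk'
    · obtain ⟨j, rfl⟩ := Nat.exists_eq_add_of_le hk'
      rw [pre_add ξ (l + D) j, List.append_assoc] at h1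
      exact ⟨j, w, List.append_cancel_left h1, h2⟩
    · exact ⟨0, u, rfl, by omega⟩
  · intro v hv hne u hu
    by_contra hcon
    rw [TAut.sec_apply] at hcon
    obtain ⟨η, hη, k, w, h1, h2⟩ := hg _ hcon
    have hlen := congrArg List.length h1
    rw [List.length_append, List.length_append, length_pre] at hlen
    apply hne η hη
    have h3 := congrArg (List.take (l + D)) h1
    rw [List.take_append_of_le_length (by omega), List.take_append_of_le_length
      (by rw [length_pre]; omega), pre_take _ (by omega), List.take_of_length_le (by omega)] at h3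
    exact h3

/-- A directed automorphism is conjugate to one along the base ray. -/
theorem Dir.conj {D : ℕ} {ξ : ℕ → X} {g : TAut X} (hg : Dir D ξ g) (x0 : X) :
    (FJ.tau x0 (actRay g ξ))⁻¹ * g * FJ.tau x0 ξ ∈ C0 x0 := by
  have h1 : actRay (FJ.tau x0 ξ) (fun _ => x0) = ξ := actRay_tau x0 ξ
  have h2 : actRay (FJ.tau x0 (actRay g ξ)) (fun _ => x0) = actRay g ξ := actRay_tau x0 _
  refine ⟨?_, D, ?_⟩
  · rw [actRay_mul, actRay_mul, h1, actRay_inv_eq h2]
  · refine Dir.mul ?_ ((Dir.tau x0 ξ).mono (Nat.zero_le _))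
    rw [h1]
    refine Dir.mul ?_ hg
    have h3 := (Dir.tau x0 (actRay g ξ)).inv
    rw [h2] at h3
    exact h3.mono (Nat.zero_le _)

theorem Dir.mem_P0 {D : ℕ} {ξ : ℕ → X} {g : TAut X} (hg : Dir D ξ g) (x0 : X) :
    g ∈ (P0 x0).H := by
  have h1 := (P0 x0).C_le (hg.conj x0)
  have h2 : FJ.tau x0 ξ ∈ (P0 x0).H := (P0 x0).tau_mem trivial
  have h3 : FJ.tau x0 (actRay g ξ) ∈ (P0 x0).H := (P0 x0).tau_mem trivial
  have h4 : g = FJ.tau x0 (actRay g ξ) *
      ((FJ.tau x0 (actRay g ξ))⁻¹ * g * FJ.tau x0 ξ) * (FJ.tau x0 ξ)⁻¹ := by group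
  rw [h4]
  exact mul_mem (mul_mem h3 h1) (inv_mem h2)

/-- The group of the automorphisms of bounded type is in the class. -/
theorem BT_fj [Finite X] : FJClass (BT X) := by
  rcases isEmpty_or_nonempty X with hX | ⟨⟨x0⟩⟩
  · have : Subsingleton (TAut X) := by
      constructor
      intro g h
      ext v x
      exact hX.elim x
    exact .finite _
  · refine .of_level (fun g hg x => (P0 x0).H_sec hg x) (P0_fj x0) ?_
    rintro g ⟨D, R, hR, hg⟩
    obtain ⟨l, hl⟩ := exists_separating hR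
    obtain ⟨h1, h2⟩ := hg.level hl
    refine ⟨l + D, fun v hv => ?_⟩
    by_cases hv2 : ∀ ξ ∈ R, v ≠ pre ξ (l + D)
    · exact (P0 x0).G_le ⟨D, h2 v hv hv2⟩
    · push Not at hv2
      obtain ⟨ξ, hξ, rfl⟩ := hv2
      exact (h1 ξ hξ).mem_P0 x0

end Pool.Agent.H8.FJ
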