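import Mathlib

/-!
# A class of groups satisfying the Farrell-Jones conjecture

`FJClass` is the smallest class of groups which contains the finite groups and the free groups and
is closed under the operations of the constructors.  All of them are known to preserve the
K-theoretic Farrell-Jones conjecture with coefficients in additive categories and with finite
wreath products.
-/

namespace Pool.Agent.H8.FJ

/-- The free product of `A` and `B` with the images of `K` identified. -/
abbrev Amalg {A B K : Type} [Group A] [Group B] [Group K] (i : K →* A) (j : K →* B) : Type :=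
  Monoid.Coprod A B ⧸ Subgroup.normalClosure
    {x : Monoid.Coprod A B | ∃ k, x = Monoid.Coprod.inl (i k) * (Monoid.Coprod.inr (j k))⁻¹}

/-- The smallest class of groups that contains the finite groups and the free groups, and is closed
under subgroups, overgroups of finite index, products of two groups, free products of two groups
with amalgamation over a finite group, and directed colimits. -/
inductive FJClass : (G : Type) → [Group G] → Prop
  | finite (G : Type) [Group G] [Finite G] : FJClass G
  | free (S : Type) : FJClass (FreeGroup S)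
  | sub {G H : Type} [Group G] [Group H] (f : H →* G) (hf : Function.Injective f)
      (h : FJClass G) : FJClass H
  | fi {G : Type} [Group G] (N : Subgroup G) (hN : N.FiniteIndex) (h : FJClass N) : FJClass G
  | prod {G H : Type} [Group G] [Group H] (hG : FJClass G) (hH : FJClass H) : FJClass (G × H)
  | amalg {A B K : Type} [Group A] [Group B] [Group K] [Finite K] (i : K →* A) (j : K →* B)
      (hi : Function.Injective i) (hj : Function.Injective j) (hA : FJClass A) (hB : FJClass B) :
      FJClass (Amalg i j)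
  | colim {I : Type} [Preorder I] [IsDirected I (· ≤ ·)] [Nonempty I] (G : I → Type)
      [∀ i, Group (G i)] (f : ∀ i j, i ≤ j → G i →* G j)
      (hid : ∀ i x, f i i le_rfl x = x)
      (hcomp : ∀ i j k (hij : i ≤ j) (hjk : j ≤ k) (x : G i),
        f j k hjk (f i j hij x) = f i k (hij.trans hjk) x)
      {H : Type} [Group H] (g : ∀ i, G i →* H)
      (hg : ∀ i j (hij : i ≤ j) (x : G i), g j (f i j hij x) = g i x)
      (hsurj : ∀ y, ∃ i, ∃ x, g i x = y)
      (hinj : ∀ i x, g i x = 1 → ∃ j, ∃ hij : i ≤ j, f i j hij x = 1)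
      (h : ∀ i, FJClass (G i)) : FJClass H

namespace FJClass

theorem of_mulEquiv {G H : Type} [Group G] [Group H] (e : G ≃* H) (h : FJClass G) : FJClass H :=
  .sub e.symm.toMonoidHom e.symm.injective h

theorem subgroup {G : Type} [Group G] (H : Subgroup G) (h : FJClass G) : FJClass H :=
  .sub H.subtype H.subtype_injective h

theorem mono {G : Type} [Group G] {H K : Subgroup G} (hHK : H ≤ K) (h : FJClass K) : FJClass H :=
  .sub (Subgroup.inclusion hHK) (Subgroup.inclusion_injective hHK) h

/-- Directed unions. -/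
theorem union {G : Type} [Group G] {I : Type} [Preorder I] [IsDirected I (· ≤ ·)] [Nonempty I]
    (K : I → Subgroup G) (hK : ∀ i j, i ≤ j → K i ≤ K j) (hu : ∀ g, ∃ i, g ∈ K i)
    (h : ∀ i, FJClass (K i)) : FJClass G :=
  .colim (fun i => K i) (fun i j hij => Subgroup.inclusion (hK i j hij)) (fun _ _ => rfl)
    (fun _ _ _ _ _ _ => rfl) (fun i => (K i).subtype) (fun _ _ _ _ => rfl)
    (fun y => by obtain ⟨i, hi⟩ := hu y; exact ⟨i, ⟨y, hi⟩, rfl⟩)
    (fun i x hx => ⟨i, le_rfl, by
      have : (x : G) = 1 := hx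
      exact Subtype.ext this⟩) h

theorem isDirected_fg (G : Type) [Group G] :
    IsDirected {K : Subgroup G // K.FG} (· ≤ ·) := by
  refine ⟨fun a b => ⟨⟨a.1 ⊔ b.1, a.2.sup b.2⟩, ?_, ?_⟩⟩
  · exact (le_sup_left : a.1 ≤ a.1 ⊔ b.1)
  · exact (le_sup_right : b.1 ≤ a.1 ⊔ b.1)

/-- A group all of whose finitely generated subgroups are in the class. -/
theorem of_fg {G : Type} [Group G] (h : ∀ K : Subgroup G, K.FG → FJClass K) : FJClass G := by
  have : IsDirected {K : Subgroup G // K.FG} (· ≤ ·) := isDirected_fg G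
  have : Nonempty {K : Subgroup G // K.FG} := ⟨⟨⊥, ⟨∅, by simp⟩⟩⟩
  refine union (I := {K : Subgroup G // K.FG}) (fun K => K.1) (fun _ _ hij => hij) ?_
    (fun i => h i.1 i.2)
  intro g
  refine ⟨⟨Subgroup.closure {g}, ⟨{g}, by simp⟩⟩, Subgroup.subset_closure rfl⟩

/-- Locally finite groups. -/
theorem of_locallyFinite {G : Type} [Group G] (h : ∀ K : Subgroup G, K.FG → Finite K) :
    FJClass G :=
  of_fg fun K hK => by
    have := h K hK
    exact .finite K

/-- Finite powers. -/
theorem pi {G : Type} [Group G] (hG : FJClass G) (ι : Type) [Finite ι] : FJClass (ι → G) := by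
  have key : ∀ n : ℕ, FJClass (Fin n → G) := by
    intro n
    induction n with
    | zero => exact .finite _
    | succ n ih =>
      refine .sub (G := G × (Fin n → G))
        { toFun := fun x => (x 0, fun i => x i.succ)
          map_one' := rfl
          map_mul' := fun _ _ => rfl } ?_ (.prod hG ih)
      intro x y hxy
      simp only [MonoidHom.coe_mk, OneHom.coe_mk, Prod.mk.injEq] at hxy
      funext i
      refine Fin.cases hxy.1 (fun j => congrFun hxy.2 j) i
  obtain ⟨n, ⟨e⟩⟩ := Finite.exists_equiv_fin ι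
  refine .sub (G := Fin n → G)
    { toFun := fun x i => x (e.symm i)
      map_one' := rfl
      map_mul' := fun _ _ => rfl } ?_ (key n)
  intro x y hxy
  funext i
  have := congrFun hxy (e i)
  simpa using this

/-- Free products. -/
theorem coprod {A B : Type} [Group A] [Group B] (hA : FJClass A) (hB : FJClass B) :
    FJClass (Monoid.Coprod A B) := by
  let i : Unit →* A := 1
  let j : Unit →* B := 1
  have h := FJClass.amalg i j (fun _ _ _ => rfl) (fun _ _ _ => rfl) hA hB
  refine .sub (QuotientGroup.mk' _) ?_ h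
  rw [injective_iff_map_eq_one]
  intro x hx
  rw [QuotientGroup.mk'_apply, QuotientGroup.eq_one_iff] at hx
  have h2 : Subgroup.normalClosure
    {x : Monoid.Coprod A B | ∃ k, x = Monoid.Coprod.inl (i k) * (Monoid.Coprod.inr (j k))⁻¹} ≤
      ⊥ := by
    apply Subgroup.normalClosure_le_normal
    rintro x ⟨k, rfl⟩
    simp [i, j]
  simpa using h2 hx

/-- Quotients by directed unions of normal subgroups. -/
theorem quot {P : Type} [Group P] {I : Type} [Preorder I] [IsDirected I (· ≤ ·)] [Nonempty I]
    (N : I → Subgroup P) (hN : ∀ i, (N i).Normal) (hmono : ∀ i j, i ≤ j → N i ≤ N j)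
    (M : Subgroup P) [M.Normal] (hle : ∀ i, N i ≤ M) (hu : ∀ y ∈ M, ∃ i, y ∈ N i)
    (h : ∀ i, FJClass (P ⧸ N i)) : FJClass (P ⧸ M) := by
  refine .colim (I := I) (fun i => P ⧸ N i)
    (fun i j hij => QuotientGroup.map _ _ (MonoidHom.id _) (hmono i j hij)) ?_ ?_
    (fun i => QuotientGroup.map _ _ (MonoidHom.id _) (hle i)) ?_ ?_ ?_ h
  · intro i x
    obtain ⟨y, rfl⟩ := QuotientGroup.mk_surjective x
    rfl
  · intro i j k h1 h2 x
    obtain ⟨y, rfl⟩ := QuotientGroup.mk_surjective x
    rfl
  · intro i j h1 x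
    obtain ⟨y, rfl⟩ := QuotientGroup.mk_surjective x
    rfl
  · intro y
    obtain ⟨y, rfl⟩ := QuotientGroup.mk_surjective y
    exact ⟨Classical.arbitrary I, QuotientGroup.mk y, rfl⟩
  · intro i x hx
    obtain ⟨y, rfl⟩ := QuotientGroup.mk_surjective x
    have h1 : (QuotientGroup.mk y : P ⧸ M) = 1 := hx
    rw [QuotientGroup.eq_one_iff] at h1
    obtain ⟨j, hj⟩ := hu y h1
    obtain ⟨k, hk1, hk2⟩ := exists_ge_ge i j
    refine ⟨k, hk1, ?_⟩
    exact (QuotientGroup.eq_one_iff (N := N k) y).2 (hmono _ _ hk2 hj)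

/-- Amalgamated products over locally finite groups. -/
theorem amalg_locallyFinite {A B K : Type} [Group A] [Group B] [Group K] (i : K →* A)
    (j : K →* B) (hi : Function.Injective i) (hj : Function.Injective j)
    (hK : ∀ F : Subgroup K, F.FG → Finite F) (hA : FJClass A) (hB : FJClass B) :
    FJClass (Amalg i j) := by
  have : IsDirected {F : Subgroup K // F.FG} (· ≤ ·) := isDirected_fg K
  have : Nonempty {F : Subgroup K // F.FG} := ⟨⟨⊥, ⟨∅, by simp⟩⟩⟩
  let SF : {F : Subgroup K // F.FG} → Set (Monoid.Coprod A B) := fun F =>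
    {x | ∃ k : F.1, x = Monoid.Coprod.inl ((i.comp F.1.subtype) k) *
      (Monoid.Coprod.inr ((j.comp F.1.subtype) k))⁻¹}
  have hmono : ∀ F F', F ≤ F' → Subgroup.normalClosure (SF F) ≤ Subgroup.normalClosure (SF F') := by
    intro F F' hF
    apply Subgroup.normalClosure_mono
    rintro x ⟨k, rfl⟩
    exact ⟨⟨k.1, hF k.2⟩, rfl⟩
  have hdir : Directed (· ≤ ·) (fun F => Subgroup.normalClosure (SF F)) := by
    intro F F'
    obtain ⟨F'', h1, h2⟩ := exists_ge_ge F F'
    exact ⟨F'', hmono _ _ h1, hmono _ _ h2⟩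
  refine quot (I := {F : Subgroup K // F.FG}) (fun F => Subgroup.normalClosure (SF F))
    (fun F => Subgroup.normalClosure_normal) hmono _ ?_ ?_ ?_
  · intro F
    apply Subgroup.normalClosure_mono
    rintro x ⟨k, rfl⟩
    exact ⟨k.1, rfl⟩
  · intro y hy
    rw [← Subgroup.mem_iSup_of_directed hdir]
    have hn : (⨆ F, Subgroup.normalClosure (SF F)).Normal := by
      constructor
      intro n hn g
      rw [Subgroup.mem_iSup_of_directed hdir] at hn ⊢
      obtain ⟨F, hF⟩ := hn
      exact ⟨F, Subgroup.normalClosure_normal.conj_mem _ hF g⟩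
    refine Subgroup.normalClosure_le_normal (N := ⨆ F, Subgroup.normalClosure (SF F)) ?_ hy
    rintro x ⟨k, rfl⟩
    refine (Subgroup.mem_iSup_of_directed hdir).2 ⟨⟨Subgroup.closure {k}, ⟨{k}, by simp⟩⟩, ?_⟩
    apply Subgroup.subset_normalClosure
    exact ⟨⟨k, Subgroup.subset_closure rfl⟩, rfl⟩
  · intro F
    have := hK F.1 F.2
    refine .amalg (i.comp F.1.subtype) (j.comp F.1.subtype) ?_ ?_ hA hB
    · exact hi.comp F.1.subtype_injective
    · exact hj.comp F.1.subtype_injective

end FJClass

end Pool.Agent.H8.FJ
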