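import Pool.Agent.H8.FJ.Kill

/-!
# Construction of the group with the recursion
-/

namespace Pool.Agent.H8.FJ

open Classical

variable {X : Type}

/-- The data without the group `L`. -/
structure Pre (X : Type) where
  x0 : X
  G : Subgroup (TAut X)
  C : Subgroup (TAut X)
  E : Subgroup (TAut X)
  Ξ : Set (ℕ → X)
  hG : ∀ g ∈ G, ∀ x, g.sec [x] ∈ G
  hC0 : ∀ c ∈ C, c [] x0 = x0
  hCx : ∀ c ∈ C, c.sec [x0] ∈ C
  hCy : ∀ c ∈ C, ∀ y, y ≠ x0 → c.sec [y] ∈ G
  hEG : E ≤ G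
  hEC : E ≤ C
  hEx : ∀ e ∈ E, e.sec [x0] ∈ E
  hΞ : ∀ ξ ∈ Ξ, shift ξ ∈ Ξ
  hΞ0 : (fun _ => x0) ∈ Ξ
  hK : ∀ g ∈ G, ∀ ξ ∈ Ξ, ∀ η ∈ Ξ, (∀ m, g.act (pre η m) = pre ξ m) →
    ∃ m, shift^[m] ξ = shift^[m] η ∧
      (g.sec (pre η m) = 1 ∨ (shift^[m] η = (fun _ => x0) ∧ g.sec (pre η m) ∈ E))

namespace Pre

variable (P : Pre X)

/-- The rays different from the base ray. -/
abbrev Ray : Type := {ξ : ℕ → X // ξ ∈ P.Ξ ∧ ξ ≠ fun _ => P.x0}

/-- The inclusion of `E` into `G`. -/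
abbrev iE : P.E →* P.G := Subgroup.inclusion P.hEG

/-- The inclusion of `E` into `C`. -/
abbrev jE : P.E →* P.C := Subgroup.inclusion P.hEC

/-- The group acting. -/
abbrev L : Type := Monoid.Coprod (Amalg P.iE P.jE) (FreeGroup P.Ray)

/-- The copy of `G`. -/
def a : P.G →* P.L :=
  Monoid.Coprod.inl.comp ((QuotientGroup.mk' _).comp Monoid.Coprod.inl)

/-- The copy of `C`. -/
def c : P.C →* P.L :=
  Monoid.Coprod.inl.comp ((QuotientGroup.mk' _).comp Monoid.Coprod.inr)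

/-- The elements moving the base ray. -/
noncomputable def t (ξ : ℕ → X) : P.L :=
  if h : ξ ∈ P.Ξ ∧ ξ ≠ fun _ => P.x0 then Monoid.Coprod.inr (FreeGroup.of ⟨ξ, h⟩) else 1

theorem t0 : P.t (fun _ => P.x0) = 1 := by
  unfold t
  rw [dif_neg]
  rintro ⟨_, h⟩
  exact h rfl

theorem t_of (ξ : P.Ray) : P.t ξ.1 = Monoid.Coprod.inr (FreeGroup.of ξ) := by
  unfold t
  rw [dif_pos ξ.2]

/-- The universal property of `L`. -/
noncomputable def lift {H : Type} [Group H] (f : P.G →* H) (g : P.C →* H)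
    (hfg : ∀ e, f (P.iE e) = g (P.jE e)) (s : P.Ray → H) : P.L →* H :=
  Monoid.Coprod.lift
    (QuotientGroup.lift _ (Monoid.Coprod.lift f g) (by
      have h : Subgroup.normalClosure
        {x : Monoid.Coprod P.G P.C | ∃ k, x = Monoid.Coprod.inl (P.iE k) *
          (Monoid.Coprod.inr (P.jE k))⁻¹} ≤ (Monoid.Coprod.lift f g).ker := by
        apply Subgroup.normalClosure_le_normal
        rintro x ⟨k, rfl⟩
        show _ ∈ (Monoid.Coprod.lift f g).ker
        rw [MonoidHom.mem_ker, map_mul, map_inv, Monoid.Coprod.lift_apply_inl,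
          Monoid.Coprod.lift_apply_inr, hfg, mul_inv_cancel]
      intro x hx
      exact h hx))
    (FreeGroup.lift s)

theorem lift_a {H : Type} [Group H] (f : P.G →* H) (g : P.C →* H)
    (hfg : ∀ e, f (P.iE e) = g (P.jE e)) (s : P.Ray → H) (x : P.G) :
    P.lift f g hfg s (P.a x) = f x := by
  unfold lift a
  simp only [MonoidHom.comp_apply, Monoid.Coprod.lift_apply_inl]
  erw [QuotientGroup.lift_mk]

theorem lift_c {H : Type} [Group H] (f : P.G →* H) (g : P.C →* H)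
    (hfg : ∀ e, f (P.iE e) = g (P.jE e)) (s : P.Ray → H) (x : P.C) :
    P.lift f g hfg s (P.c x) = g x := by
  unfold lift c
  simp only [MonoidHom.comp_apply, Monoid.Coprod.lift_apply_inl]
  erw [QuotientGroup.lift_mk]

theorem lift_t {H : Type} [Group H] (f : P.G →* H) (g : P.C →* H)
    (hfg : ∀ e, f (P.iE e) = g (P.jE e)) (s : P.Ray → H) (ξ : P.Ray) :
    P.lift f g hfg s (P.t ξ.1) = s ξ := by
  rw [t_of]
  unfold lift
  rw [Monoid.Coprod.lift_apply_inr, FreeGroup.lift_apply_of]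

theorem hom_ext {H : Type} [Group H] {f g : P.L →* H} (h1 : ∀ x, f (P.a x) = g (P.a x))
    (h2 : ∀ x, f (P.c x) = g (P.c x)) (h3 : ∀ ξ : P.Ray, f (P.t ξ.1) = g (P.t ξ.1)) : f = g := by
  apply Monoid.Coprod.hom_ext
  · apply QuotientGroup.monoidHom_ext
    apply Monoid.Coprod.hom_ext
    · ext x
      exact h1 x
    · ext x
      exact h2 x
  · apply FreeGroup.ext_hom
    intro ξ
    have := h3 ξ
    rw [t_of] at this
    exact this

theorem aE (e : TAut X) (he : e ∈ P.E) : P.a ⟨e, P.hEG he⟩ = P.c ⟨e, P.hEC he⟩ := by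
  unfold a c
  simp only [MonoidHom.comp_apply]
  congr 1
  rw [QuotientGroup.mk'_apply, QuotientGroup.mk'_apply, QuotientGroup.eq]
  have h1 : (Monoid.Coprod.inl (P.iE ⟨e, he⟩) * (Monoid.Coprod.inr (P.jE ⟨e, he⟩))⁻¹ :
      Monoid.Coprod P.G P.C) ∈ Subgroup.normalClosure
        {x : Monoid.Coprod P.G P.C | ∃ k, x = Monoid.Coprod.inl (P.iE k) *
          (Monoid.Coprod.inr (P.jE k))⁻¹} := Subgroup.subset_normalClosure ⟨⟨e, he⟩, rfl⟩
  have h2 := Subgroup.normalClosure_normal.mem_comm h1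
  have h3 := Subgroup.inv_mem _ h2
  rw [mul_inv_rev, inv_inv] at h3
  exact h3

theorem gen : Subgroup.closure (Set.range P.a ∪ Set.range P.c ∪ P.t '' P.Ξ) = ⊤ := by
  set S := Subgroup.closure (Set.range P.a ∪ Set.range P.c ∪ P.t '' P.Ξ) with hS
  have ha : ∀ x, P.a x ∈ S := fun x => Subgroup.subset_closure (Or.inl (Or.inl ⟨x, rfl⟩))
  have hc : ∀ x, P.c x ∈ S := fun x => Subgroup.subset_closure (Or.inl (Or.inr ⟨x, rfl⟩))
  have ht : ∀ ξ : P.Ray, P.t ξ.1 ∈ S := fun ξ =>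
    Subgroup.subset_closure (Or.inr ⟨ξ.1, ξ.2.1, rfl⟩)
  let F : P.L →* S := P.lift (P.a.codRestrict S ha) (P.c.codRestrict S hc)
    (fun e => Subtype.ext (P.aE e.1 e.2)) (fun ξ => ⟨P.t ξ.1, ht ξ⟩)
  have hF : S.subtype.comp F = MonoidHom.id _ := by
    apply P.hom_ext
    · intro x
      rw [MonoidHom.comp_apply]
      show S.subtype (P.lift _ _ _ _ (P.a x)) = _
      rw [lift_a]; rfl
    · intro x
      rw [MonoidHom.comp_apply]
      show S.subtype (P.lift _ _ _ _ (P.c x)) = _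
      rw [lift_c]; rfl
    · intro x
      rw [MonoidHom.comp_apply]
      show S.subtype (P.lift _ _ _ _ (P.t x.1)) = _
      rw [lift_t]; rfl
  rw [eq_top_iff]
  intro w _
  have := congrArg (fun f : P.L →* P.L => f w) hF
  have h2 : ((F w : S) : P.L) = w := this
  rw [← h2]
  exact (F w).2

/-- The recursion on `G`. -/
def phiA : P.G →* Wr X P.L where
  toFun g := ⟨(g : TAut X) [], fun x => P.a ⟨(g : TAut X).sec [x], P.hG g g.2 x⟩⟩
  map_one' := by
    refine Wr.ext rfl (fun x => ?_)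
    exact map_one P.a
  map_mul' g h := by
    refine Wr.ext rfl (fun x => ?_)
    show P.a _ = P.a _ * P.a _
    rw [← map_mul]
    congr 1

/-- The recursion on `C`. -/
noncomputable def phiC : P.C →* Wr X P.L where
  toFun g := ⟨(g : TAut X) [], fun x =>
    if h : x = P.x0 then P.c ⟨(g : TAut X).sec [P.x0], P.hCx g g.2⟩
    else P.a ⟨(g : TAut X).sec [x], P.hCy g g.2 x h⟩⟩
  map_one' := by
    refine Wr.ext rfl (fun x => ?_)
    show (if h : x = P.x0 then _ else _) = _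
    split_ifs with h
    · exact map_one P.c
    · exact map_one P.a
  map_mul' g h := by
    refine Wr.ext rfl (fun x => ?_)
    rw [Wr.mul_sec]
    show (if h : x = P.x0 then _ else _) = (if h : (h : TAut X) [] x = P.x0 then _ else _) *
      (if h : x = P.x0 then _ else _)
    by_cases hx : x = P.x0
    · subst hx
      rw [dif_pos rfl, dif_pos rfl, dif_pos (P.hC0 h h.2), ← map_mul]
      congr 1
      apply Subtype.ext
      show ((g : TAut X) * h).sec [P.x0] = (g : TAut X).sec [P.x0] * (h : TAut X).sec [P.x0]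
      rw [TAut.sec_mul, TAut.act_cons, P.hC0 h h.2]
      rfl
    · have h2 : (h : TAut X) [] x ≠ P.x0 := by
        intro h3
        exact hx (((h : TAut X) []).injective (h3.trans (P.hC0 h h.2).symm))
      rw [dif_neg hx, dif_neg hx, dif_neg h2, ← map_mul]
      congr 1

/-- The recursion. -/
noncomputable def phi : P.L →* Wr X P.L :=
  P.lift P.phiA P.phiC
    (by
      intro e
      refine Wr.ext rfl (fun x => ?_)
      show P.a _ = (if h : x = P.x0 then _ else _)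
      split_ifs with h
      · subst h
        exact P.aE _ (P.hEx e.1 e.2)
      · rfl)
    (fun ξ => ⟨Equiv.swap P.x0 (ξ.1 0), fun x => if x = P.x0 then P.t (shift ξ.1) else 1⟩)

/-- The action. -/
noncomputable def pi : P.L →* TAut X :=
  P.lift P.G.subtype P.C.subtype (fun _ => rfl) (fun ξ => tau P.x0 ξ.1)

theorem pi_a (g : P.G) : P.pi (P.a g) = g := P.lift_a _ _ _ _ g
theorem pi_c (g : P.C) : P.pi (P.c g) = g := P.lift_c _ _ _ _ g
theorem pi_t (ξ : ℕ → X) (hξ : ξ ∈ P.Ξ) : P.pi (P.t ξ) = tau P.x0 ξ := by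
  by_cases h : ξ = fun _ => P.x0
  · subst h
    rw [P.t0, tau_const, map_one]
  · exact P.lift_t _ _ _ _ ⟨ξ, hξ, h⟩

theorem phi_a' (g : P.G) : P.phi (P.a g) = P.phiA g := P.lift_a _ _ _ _ g
theorem phi_c' (g : P.C) : P.phi (P.c g) = P.phiC g := P.lift_c _ _ _ _ g
theorem phi_t' (ξ : ℕ → X) (hξ : ξ ∈ P.Ξ) : P.phi (P.t ξ) =
    ⟨Equiv.swap P.x0 (ξ 0), fun x => if x = P.x0 then P.t (shift ξ) else 1⟩ := by
  by_cases h : ξ = fun _ => P.x0
  · subst h
    rw [P.t0, map_one]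
    refine Wr.ext ?_ (fun x => ?_)
    · show 1 = Equiv.swap P.x0 P.x0
      rw [Equiv.swap_self]; rfl
    · show 1 = if x = P.x0 then P.t (fun _ => P.x0) else 1
      rw [P.t0, ite_self]
  · exact P.lift_t _ _ _ _ ⟨ξ, hξ, h⟩

theorem compat (w : P.L) : TAut.dec (P.pi w) = Wr.map P.pi (P.phi w) := by
  have h : TAut.dec.comp P.pi = (Wr.map P.pi).comp P.phi := by
    apply P.hom_ext
    · intro g
      rw [MonoidHom.comp_apply, MonoidHom.comp_apply, P.pi_a, P.phi_a']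
      refine Wr.ext rfl (fun x => ?_)
      exact (P.pi_a ⟨(g : TAut X).sec [x], P.hG g g.2 x⟩).symm
    · intro g
      rw [MonoidHom.comp_apply, MonoidHom.comp_apply, P.pi_c, P.phi_c']
      refine Wr.ext rfl (fun x => ?_)
      show (g : TAut X).sec [x] = P.pi (if h : x = P.x0 then _ else _)
      split_ifs with h
      · subst h
        exact (P.pi_c ⟨(g : TAut X).sec [P.x0], P.hCx g g.2⟩).symm
      · exact (P.pi_a ⟨(g : TAut X).sec [x], P.hCy g g.2 x h⟩).symm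
    · intro ξ
      rw [MonoidHom.comp_apply, MonoidHom.comp_apply, P.pi_t _ ξ.2.1, P.phi_t' _ ξ.2.1]
      refine Wr.ext ?_ (fun x => ?_)
      · exact tau_nil _ _
      · show (tau P.x0 ξ.1).sec [x] = P.pi (if x = P.x0 then P.t (shift ξ.1) else 1)
        split_ifs with h
        · subst h
          rw [tau_sec_same, P.pi_t _ (P.hΞ _ ξ.2.1)]
        · rw [tau_sec_ne _ _ h, map_one]
  exact congrArg (fun f : P.L →* Wr X (TAut X) => f w) h

/-- The data for the theorem. -/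
noncomputable def toKData : KData X P.L where
  phi := P.phi
  pi := P.pi
  compat := P.compat
  x0 := P.x0
  G := P.G
  C := P.C
  E := P.E
  Ξ := P.Ξ
  hG := P.hG
  hC0 := P.hC0
  hCx := P.hCx
  hCy := P.hCy
  hEG := P.hEG
  hEC := P.hEC
  hΞ := P.hΞ
  hΞ0 := P.hΞ0
  a := P.a
  c := P.c
  t := P.t
  t0 := P.t0
  pi_a := P.pi_a
  pi_c := P.pi_c
  pi_t := P.pi_t
  phi_a g x := by rw [P.phi_a']; rfl
  phi_cx g := by rw [P.phi_c']; exact dif_pos rfl
  phi_cy g y hy := by rw [P.phi_c']; exact dif_neg hy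
  phi_tx ξ hξ := by rw [P.phi_t' ξ hξ]; exact if_pos rfl
  phi_ty ξ hξ y hy := by rw [P.phi_t' ξ hξ]; exact if_neg hy
  aE e he := P.aE e he
  gen := P.gen
  hK := P.hK

/-- The group generated by `G`, `C` and the automorphisms moving the base ray. -/
noncomputable def H : Subgroup (TAut X) := P.pi.range

theorem G_le : P.G ≤ P.H := fun g hg => ⟨P.a ⟨g, hg⟩, P.pi_a _⟩
theorem C_le : P.C ≤ P.H := fun g hg => ⟨P.c ⟨g, hg⟩, P.pi_c _⟩
theorem tau_mem {ξ : ℕ → X} (hξ : ξ ∈ P.Ξ) : tau P.x0 ξ ∈ P.H := ⟨P.t ξ, P.pi_t ξ hξ⟩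

theorem H_sec {g : TAut X} (hg : g ∈ P.H) (x : X) : g.sec [x] ∈ P.H := by
  obtain ⟨w, rfl⟩ := hg
  exact ⟨(P.phi w).sec x, P.toKData.toRec.pi_sec1 w x⟩

/-- The main theorem. -/
theorem fj [Finite X] (hG : FJClass P.G) (hC : FJClass P.C)
    (hE : ∀ F : Subgroup P.E, F.FG → Finite F) : FJClass P.H := by
  have hL : FJClass P.L := by
    refine .coprod ?_ (.free _)
    exact .amalg_locallyFinite _ _ (Subgroup.inclusion_injective _)
      (Subgroup.inclusion_injective _) hE hG hC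
  exact P.toKData.fj hL

end Pre

end Pool.Agent.H8.FJ
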