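import Pool.Agent.H8.FJ.Tree

/-!
# Rays and types of automorphisms
-/

namespace Pool.Agent.H8.FJ

variable {X : Type}

/-- The shift of a ray. -/
def shift (ξ : ℕ → X) : ℕ → X := fun n => ξ (n + 1)

/-- The initial words of a ray: `pre ξ m` is the word of the first `m` letters of `ξ`. -/
def pre (ξ : ℕ → X) : ℕ → List X
  | 0 => []
  | m + 1 => ξ 0 :: pre (shift ξ) m

/-- The portrait of `g` is trivial at all the vertices at distance more than `D` from the rays
of `R`. -/
def Near (D : ℕ) (R : Set (ℕ → X)) (g : TAut X) : Prop :=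
  ∀ v, g v ≠ 1 → ∃ ξ ∈ R, ∃ k w, v = pre ξ k ++ w ∧ w.length ≤ D

/-- Automorphisms of bounded type: the portrait is trivial outside of a neighbourhood of finitely
many rays. -/
def BoundedType (g : TAut X) : Prop := ∃ D : ℕ, ∃ R : Set (ℕ → X), R.Finite ∧ Near D R g

/-- Automorphisms of linear type: there is a finite non-empty set `R` of rays such that the
sections at the vertices `pre ξ k ++ [x]` at which a path leaves the rays of `R` are of bounded
type and belong to a finite set `B`. -/
def LinearType (g : TAut X) : Prop :=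
  ∃ R : Set (ℕ → X), R.Finite ∧ R.Nonempty ∧ ∃ B : Set (TAut X), B.Finite ∧
    (∀ b ∈ B, BoundedType b) ∧
    ∀ ξ ∈ R, ∀ k x, (∀ η ∈ R, pre η (k + 1) ≠ pre ξ k ++ [x]) → g.sec (pre ξ k ++ [x]) ∈ B

/-- Automatic automorphisms: the automorphisms with finitely many sections (states). -/
def Automatic (g : TAut X) : Prop := {s : TAut X | ∃ v, g.sec v = s}.Finite

/-- The activity: the number of the vertices of the level `n` at which the section of `g` is
non-trivial. -/
noncomputable def activity (g : TAut X) (n : ℕ) : ℕ :=
  Set.ncard {v : List X | v.length = n ∧ g.sec v ≠ 1}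

/-- At most linear activity. -/
def LinearActivity (g : TAut X) : Prop := ∃ C, ∀ n, activity g n ≤ C * (n + 1)

end Pool.Agent.H8.FJ
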