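import Pool.Agent.H8.FJ.Rec
import Pool.Agent.H8.FJ.Types

/-!
# The kernel of the action is exhausted by the recursion
-/

namespace Pool.Agent.H8.FJ

open Classical

variable {X : Type}

@[simp] theorem pre_zero (ξ : ℕ → X) : pre ξ 0 = [] := rfl

theorem pre_succ (ξ : ℕ → X) (m : ℕ) : pre ξ (m + 1) = ξ 0 :: pre (shift ξ) m := rfl

@[simp] theorem length_pre (ξ : ℕ → X) (m : ℕ) : (pre ξ m).length = m := by
  induction m generalizing ξ with
  | zero => rfl
  | succ m ih => simp [pre_succ, ih]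

theorem pre_add (ξ : ℕ → X) (m n : ℕ) : pre ξ (m + n) = pre ξ m ++ pre (shift^[m] ξ) n := by
  induction m generalizing ξ with
  | zero => simp
  | succ m ih =>
    rw [Nat.succ_add, pre_succ, ih, pre_succ, Function.iterate_succ_apply]
    rfl

theorem shift_iterate (ξ : ℕ → X) (m n : ℕ) : (shift^[m] ξ) n = ξ (n + m) := by
  induction m generalizing ξ with
  | zero => rfl
  | succ m ih =>
    rw [Function.iterate_succ_apply, ih]
    show ξ (n + m + 1) = ξ (n + (m + 1))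
    rfl

theorem shift_const (x : X) : shift (fun _ => x) = fun _ => x := rfl

theorem shift_iterate_const (x : X) (m : ℕ) : shift^[m] (fun _ : ℕ => x) = fun _ => x := by
  funext n; rw [shift_iterate]

theorem pre_const (x : X) (m : ℕ) : pre (fun _ => x) m = List.replicate m x := by
  induction m with
  | zero => rfl
  | succ m ih => rw [pre_succ, shift_const, ih, List.replicate_succ]

/-- The automorphism which maps the ray `x0 x0 x0 ...` to the ray `ξ`. -/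
noncomputable def tau (x0 : X) (ξ : ℕ → X) : TAut X := fun v =>
  if v = List.replicate v.length x0 then Equiv.swap x0 (ξ v.length) else 1

theorem tau_nil (x0 : X) (ξ : ℕ → X) : tau x0 ξ [] = Equiv.swap x0 (ξ 0) := by
  simp [tau]

theorem tau_sec_same (x0 : X) (ξ : ℕ → X) : (tau x0 ξ).sec [x0] = tau x0 (shift ξ) := by
  ext v : 1
  simp only [TAut.sec_apply, tau, List.singleton_append, List.length_cons, List.replicate_succ,
    List.cons_inj_right, shift]

theorem tau_sec_ne (x0 : X) (ξ : ℕ → X) {y : X} (hy : y ≠ x0) : (tau x0 ξ).sec [y] = 1 := by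
  ext v : 1
  simp only [TAut.sec_apply, tau, List.singleton_append, List.length_cons, List.replicate_succ,
    List.cons.injEq, hy, false_and, if_false, TAut.one_apply]

theorem tau_const (x0 : X) : tau x0 (fun _ => x0) = 1 := by
  ext v : 1
  unfold tau
  split_ifs
  · rw [Equiv.swap_self]; rfl
  · rfl

theorem tau_act (x0 : X) (ξ : ℕ → X) (m : ℕ) : (tau x0 ξ).act (List.replicate m x0) = pre ξ m := by
  induction m generalizing ξ with
  | zero => rfl
  | succ m ih =>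
    rw [List.replicate_succ, TAut.act_cons, tau_sec_same, ih, tau_nil, Equiv.swap_apply_left,
      pre_succ]

/-- The data for the theorem: `L` is generated by copies of the section closed group `G`, of the
group `C` of automorphisms which fix the ray `x0 x0 ...` and whose other sections are in `G`, and
of elements moving this ray to the rays of `Ξ`. -/
structure KData (X L : Type) [Group L] extends Rec X L where
  x0 : X
  G : Subgroup (TAut X)
  C : Subgroup (TAut X)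
  E : Subgroup (TAut X)
  Ξ : Set (ℕ → X)
  hG : ∀ g ∈ G, ∀ x, g.sec [x] ∈ G
  hC0 : ∀ c ∈ C, c [] x0 = x0
  hCx : ∀ c ∈ C, c.sec [x0] ∈ C
  hCy : ∀ c ∈ C, ∀ y, y ≠ x0 → c.sec [y] ∈ G
  hEG : E ≤ G
  hEC : E ≤ C
  hΞ : ∀ ξ ∈ Ξ, shift ξ ∈ Ξ
  hΞ0 : (fun _ => x0) ∈ Ξ
  a : G →* L
  c : C →* L
  t : (ℕ → X) → L
  t0 : t (fun _ => x0) = 1
  pi_a : ∀ g, pi (a g) = g
  pi_c : ∀ g, pi (c g) = g
  pi_t : ∀ ξ ∈ Ξ, pi (t ξ) = tau x0 ξ
  phi_a : ∀ (g : G) (x : X), (phi (a g)).sec x = a ⟨(g : TAut X).sec [x], hG g g.2 x⟩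
  phi_cx : ∀ g : C, (phi (c g)).sec x0 = c ⟨(g : TAut X).sec [x0], hCx g g.2⟩
  phi_cy : ∀ (g : C) (y : X) (hy : y ≠ x0),
    (phi (c g)).sec y = a ⟨(g : TAut X).sec [y], hCy g g.2 y hy⟩
  phi_tx : ∀ ξ ∈ Ξ, (phi (t ξ)).sec x0 = t (shift ξ)
  phi_ty : ∀ ξ ∈ Ξ, ∀ y, y ≠ x0 → (phi (t ξ)).sec y = 1
  aE : ∀ e (he : e ∈ E), a ⟨e, hEG he⟩ = c ⟨e, hEC he⟩
  gen : Subgroup.closure (Set.range a ∪ Set.range c ∪ t '' Ξ) = ⊤
  hK : ∀ g ∈ G, ∀ ξ ∈ Ξ, ∀ η ∈ Ξ, (∀ m, g.act (pre η m) = pre ξ m) →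
    ∃ m, shift^[m] ξ = shift^[m] η ∧
      (g.sec (pre η m) = 1 ∨ (shift^[m] η = (fun _ => x0) ∧ g.sec (pre η m) ∈ E))

namespace KData

variable {L : Type} [Group L] (D : KData X L)

theorem Ξ_iter {ξ : ℕ → X} (h : ξ ∈ D.Ξ) (m : ℕ) : shift^[m] ξ ∈ D.Ξ := by
  induction m with
  | zero => exact h
  | succ m ih => rw [Function.iterate_succ_apply']; exact D.hΞ _ ih

theorem G_sec {g : TAut X} (hg : g ∈ D.G) (v : List X) : g.sec v ∈ D.G := by
  induction v generalizing g with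
  | nil => exact hg
  | cons x v ih => rw [TAut.sec_cons]; exact ih (D.hG g hg x)

theorem C_sec {g : TAut X} (hg : g ∈ D.C) (m : ℕ) : g.sec (List.replicate m D.x0) ∈ D.C := by
  induction m generalizing g with
  | zero => exact hg
  | succ m ih => rw [List.replicate_succ, TAut.sec_cons]; exact ih (D.hCx g hg)

theorem C_act {g : TAut X} (hg : g ∈ D.C) (m : ℕ) :
    g.act (List.replicate m D.x0) = List.replicate m D.x0 := by
  induction m generalizing g with
  | zero => rfl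
  | succ m ih => rw [List.replicate_succ, TAut.act_cons, D.hC0 g hg, ih (D.hCx g hg)]

theorem secL_a (g : D.G) (v : List X) :
    D.toRec.secL (D.a g) v = D.a ⟨(g : TAut X).sec v, D.G_sec g.2 v⟩ := by
  induction v generalizing g with
  | nil => rfl
  | cons x v ih =>
    rw [Rec.secL_cons, D.phi_a, ih]
    have h : (⟨(g : TAut X).sec (x :: v), D.G_sec g.2 (x :: v)⟩ : D.G) =
        ⟨((g : TAut X).sec [x]).sec v, D.G_sec (D.hG g g.2 x) v⟩ :=
      Subtype.ext (TAut.sec_cons _ x v)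
    rw [h]

/-- The directed letters. -/
def nl (η : ℕ → X) (γ : D.C) (ξ : ℕ → X) : L := D.t η * D.c γ * (D.t ξ)⁻¹

theorem phi_t_perm {ξ : ℕ → X} (hξ : ξ ∈ D.Ξ) : (D.phi (D.t ξ)).perm = Equiv.swap D.x0 (ξ 0) := by
  rw [Rec.phi_perm, D.pi_t ξ hξ, tau_nil]

theorem phi_c_perm (γ : D.C) : (D.phi (D.c γ)).perm = (γ : TAut X) [] := by
  rw [Rec.phi_perm, D.pi_c]

theorem nl_sec_same {η ξ : ℕ → X} (hη : η ∈ D.Ξ) (hξ : ξ ∈ D.Ξ) (γ : D.C) :
    (D.phi (D.nl η γ ξ)).sec (ξ 0) =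
      D.nl (shift η) ⟨(γ : TAut X).sec [D.x0], D.hCx γ γ.2⟩ (shift ξ) := by
  unfold nl
  rw [map_mul, map_mul, map_inv, Wr.mul_sec, Wr.mul_sec, Wr.inv_sec, Wr.inv_perm,
    D.phi_t_perm hξ, Equiv.swap_inv, Equiv.swap_apply_right, D.phi_tx ξ hξ, D.phi_cx,
    D.phi_c_perm, D.hC0 γ γ.2, D.phi_tx η hη]

theorem nl_sec_ne {η ξ : ℕ → X} (hη : η ∈ D.Ξ) (hξ : ξ ∈ D.Ξ) (γ : D.C) {x : X}
    (hx : x ≠ ξ 0) : ∃ g, (D.phi (D.nl η γ ξ)).sec x = D.a g := by
  have hy : Equiv.swap D.x0 (ξ 0) x ≠ D.x0 := by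
    intro h
    apply hx
    have := congrArg (Equiv.swap D.x0 (ξ 0)) h
    rw [Equiv.swap_apply_self, Equiv.swap_apply_left] at this
    exact this
  have hz : (γ : TAut X) [] (Equiv.swap D.x0 (ξ 0) x) ≠ D.x0 := by
    intro h
    exact hy (((γ : TAut X) []).injective (h.trans (D.hC0 γ γ.2).symm))
  refine ⟨⟨_, D.hCy γ γ.2 _ hy⟩, ?_⟩
  unfold nl
  rw [map_mul, map_mul, map_inv, Wr.mul_sec, Wr.mul_sec, Wr.inv_sec, Wr.inv_perm,
    D.phi_t_perm hξ, Equiv.swap_inv, D.phi_ty ξ hξ _ hy, D.phi_cy γ _ hy,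
    D.phi_c_perm, D.phi_ty η hη _ hz, inv_one, mul_one, one_mul]

theorem pi_nl {η ξ : ℕ → X} (hη : η ∈ D.Ξ) (hξ : ξ ∈ D.Ξ) (γ : D.C) :
    D.pi (D.nl η γ ξ) = tau D.x0 η * γ * (tau D.x0 ξ)⁻¹ := by
  unfold nl
  rw [map_mul, map_mul, map_inv, D.pi_t η hη, D.pi_t ξ hξ, D.pi_c]

theorem nl_act {η ξ : ℕ → X} (hη : η ∈ D.Ξ) (hξ : ξ ∈ D.Ξ) (γ : D.C) (m : ℕ) :
    (D.pi (D.nl η γ ξ)).act (pre ξ m) = pre η m := by
  have h1 : (tau D.x0 ξ)⁻¹.act (pre ξ m) = List.replicate m D.x0 := by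
    rw [← tau_act D.x0 ξ m, ← TAut.act_mul, inv_mul_cancel, TAut.act_one]
  rw [D.pi_nl hη hξ, TAut.act_mul, TAut.act_mul, h1, D.C_act γ.2, tau_act]

theorem nl_secL_same {η ξ : ℕ → X} (hη : η ∈ D.Ξ) (hξ : ξ ∈ D.Ξ) (γ : D.C) (m : ℕ) :
    D.toRec.secL (D.nl η γ ξ) (pre ξ m) =
      D.nl (shift^[m] η) ⟨(γ : TAut X).sec (List.replicate m D.x0), D.C_sec γ.2 m⟩
        (shift^[m] ξ) := by
  induction m generalizing η ξ γ with
  | zero => rfl
  | succ m ih =>
    rw [pre_succ, Rec.secL_cons, D.nl_sec_same hη hξ, ih (D.hΞ _ hη) (D.hΞ _ hξ)]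
    rw [Function.iterate_succ_apply, Function.iterate_succ_apply]
    have h : (⟨(γ : TAut X).sec (List.replicate (m + 1) D.x0), D.C_sec γ.2 (m + 1)⟩ : D.C) =
        ⟨((γ : TAut X).sec [D.x0]).sec (List.replicate m D.x0), D.C_sec (D.hCx γ γ.2) m⟩ :=
      Subtype.ext (TAut.sec_cons _ D.x0 _)
    rw [h]

theorem nl_secL_ne {η ξ : ℕ → X} (hη : η ∈ D.Ξ) (hξ : ξ ∈ D.Ξ) (γ : D.C) {v : List X}
    (hv : v ≠ pre ξ v.length) : ∃ g, D.toRec.secL (D.nl η γ ξ) v = D.a g := by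
  induction v generalizing η ξ γ with
  | nil => exact absurd rfl hv
  | cons x v ih =>
    rw [Rec.secL_cons]
    by_cases hx : x = ξ 0
    · subst hx
      rw [D.nl_sec_same hη hξ]
      apply ih (D.hΞ _ hη) (D.hΞ _ hξ)
      intro h
      apply hv
      rw [List.length_cons, pre_succ, ← h]
    · obtain ⟨g, hg⟩ := D.nl_sec_ne hη hξ γ hx
      rw [hg, D.secL_a]
      exact ⟨_, rfl⟩

/-- Words with at most `k` directed letters. -/
inductive Wd : ℕ → L → Prop
  | base (g : D.G) : Wd 0 (D.a g)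
  | up {k : ℕ} {w : L} (h : Wd k w) : Wd (k + 1) w
  | step {k : ℕ} {w : L} (h : Wd k w) {η ξ : ℕ → X} (hη : η ∈ D.Ξ) (hξ : ξ ∈ D.Ξ) (γ : D.C)
      (g : D.G) : Wd (k + 1) (w * D.nl η γ ξ * D.a g)

variable {D}

theorem Wd.mono {k l : ℕ} (hkl : k ≤ l) {w : L} (h : D.Wd k w) : D.Wd l w := by
  induction l, hkl using Nat.le_induction with
  | base => exact h
  | succ l _ ih => exact .up ih

theorem Wd.mul_a {k : ℕ} {w : L} (h : D.Wd k w) (g : D.G) : D.Wd k (w * D.a g) := by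
  induction h with
  | base g' => rw [← map_mul]; exact .base _
  | up _ ih => exact .up ih
  | step h hη hξ γ g' _ =>
    rw [mul_assoc _ (D.a g'), ← map_mul]
    exact .step h hη hξ γ _

theorem Wd.mul {k l : ℕ} {w w' : L} (h : D.Wd k w) (h' : D.Wd l w') : D.Wd (k + l) (w * w') := by
  induction h' with
  | base g' => exact h.mul_a g'
  | up _ ih => exact .up ih
  | step h'' hη hξ γ g' ih =>
    rw [← mul_assoc, ← mul_assoc]
    exact .step ih hη hξ γ _

theorem Wd.secL {k : ℕ} {w : L} (h : D.Wd k w) (v : List X) : D.Wd k (D.toRec.secL w v) := by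
  induction h generalizing v with
  | base g' => rw [D.secL_a]; exact .base _
  | up _ ih => exact .up (ih v)
  | step h hη hξ γ g ih =>
    rw [Rec.secL_mul, Rec.secL_mul, D.secL_a]
    rename_i η ξ
    set v' := (D.pi (D.a g)).act v
    by_cases hv : v' = pre ξ v'.length
    · rw [hv, D.nl_secL_same hη hξ]
      exact .step (ih _) (D.Ξ_iter hη _) (D.Ξ_iter hξ _) _ _
    · obtain ⟨g', hg'⟩ := D.nl_secL_ne hη hξ γ hv
      rw [hg']
      exact .up (((ih _).mul_a g').mul_a _)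

theorem exists_Wd (w : L) : ∃ k, D.Wd k w := by
  have hw : w ∈ Subgroup.closure (Set.range D.a ∪ Set.range D.c ∪ D.t '' D.Ξ) := by
    rw [D.gen]; trivial
  have hone : D.Wd 0 1 := by
    have := Wd.base (D := D) 1
    rwa [map_one] at this
  have hnl : ∀ η ∈ D.Ξ, ∀ ξ ∈ D.Ξ, ∀ γ, D.Wd 1 (D.nl η γ ξ) := by
    intro η hη ξ hξ γ
    have := Wd.step hone hη hξ γ 1
    rwa [map_one, mul_one, one_mul] at this
  induction hw using Subgroup.closure_induction_left with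
  | one => exact ⟨0, hone⟩
  | mul_left x hx y _ ih =>
    obtain ⟨k, hk⟩ := ih
    rcases hx with (⟨g, rfl⟩ | ⟨γ, rfl⟩) | ⟨ξ, hξ, rfl⟩
    · exact ⟨_, (Wd.base g).mul hk⟩
    · have h1 := hnl _ D.hΞ0 _ D.hΞ0 γ
      unfold nl at h1
      rw [D.t0, inv_one, mul_one, one_mul] at h1
      exact ⟨_, h1.mul hk⟩
    · have h1 := hnl _ hξ _ D.hΞ0 1
      unfold nl at h1
      rw [D.t0, inv_one, mul_one, map_one, mul_one] at h1
      exact ⟨_, h1.mul hk⟩
  | inv_mul_cancel x hx y _ ih =>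
    obtain ⟨k, hk⟩ := ih
    rcases hx with (⟨g, rfl⟩ | ⟨γ, rfl⟩) | ⟨ξ, hξ, rfl⟩
    · rw [← map_inv]
      exact ⟨_, (Wd.base _).mul hk⟩
    · have h1 := hnl _ D.hΞ0 _ D.hΞ0 γ⁻¹
      unfold nl at h1
      rw [D.t0, inv_one, mul_one, one_mul] at h1
      rw [← map_inv]
      exact ⟨_, h1.mul hk⟩
    · have h1 := hnl _ D.hΞ0 _ hξ 1
      unfold nl at h1
      rw [D.t0, one_mul, map_one, one_mul] at h1
      exact ⟨_, h1.mul hk⟩

/-- The element is killed by the recursion. -/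
def Killed (D : KData X L) (w : L) : Prop := ∃ m, ∀ v : List X, v.length = m → D.toRec.secL w v = 1

theorem Killed.of_level [Finite X] {w : L} {m : ℕ}
    (h : ∀ v : List X, v.length = m → D.Killed (D.toRec.secL w v)) : D.Killed w := by
  choose! f hf using h
  have hfin : {v : List X | v.length = m}.Finite := List.finite_length_eq X m
  obtain ⟨n, hn⟩ := (hfin.image f).bddAbove
  refine ⟨m + n, fun v hv => ?_⟩
  have h1 : (v.take m).length = m := by rw [List.length_take]; omega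
  have h2 : f (v.take m) ≤ n := hn ⟨_, h1, rfl⟩
  have h3 : v = v.take m ++ ((v.drop m).take (f (v.take m)) ++ (v.drop m).drop (f (v.take m))) := by
    rw [List.take_append_drop, List.take_append_drop]
  rw [h3, Rec.secL_append, Rec.secL_append, hf _ h1, Rec.secL_one]
  rw [List.length_take, List.length_drop]
  omega

theorem nl_merge {η ξ ζ : ℕ → X} (γ γ' : D.C) (e : D.G)
    (he : (e : TAut X) = 1 ∨ (ζ = (fun _ => D.x0) ∧ (e : TAut X) ∈ D.E)) :
    ∃ γ'' : D.C, D.nl η γ ζ * D.a e * D.nl ζ γ' ξ = D.nl η γ'' ξ := by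
  unfold nl
  rcases he with he | ⟨hζ, he⟩
  · have h1 : e = 1 := Subtype.ext he
    refine ⟨γ * γ', ?_⟩
    rw [h1, map_one, map_mul]
    group
  · subst hζ
    have h1 : D.a e = D.c ⟨e, D.hEC he⟩ := D.aE e he
    refine ⟨γ * ⟨e, D.hEC he⟩ * γ', ?_⟩
    rw [h1, D.t0, map_mul, map_mul]
    group

theorem a_eq_one {g : D.G} (h : D.pi (D.a g) = 1) : D.a g = 1 := by
  rw [D.pi_a] at h
  have : g = 1 := Subtype.ext h
  rw [this, map_one]

/-- One directed letter. -/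
theorem killed_one {η ξ : ℕ → X} (hη : η ∈ D.Ξ) (hξ : ξ ∈ D.Ξ) (γ : D.C) (g0 g1 : D.G)
    (h : D.pi (D.a g0 * D.nl η γ ξ * D.a g1) = 1) :
    D.Killed (D.a g0 * D.nl η γ ξ * D.a g1) := by
  have hact : ∀ v, (g0 : TAut X).act ((D.pi (D.nl η γ ξ)).act ((g1 : TAut X).act v)) = v := by
    intro v
    have := congrArg (fun g : TAut X => g.act v) h
    simpa only [map_mul, TAut.act_mul, D.pi_a, TAut.act_one] using this
  have hray : ∀ m, ((g1 : TAut X) * g0).act (pre η m) = pre ξ m := by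
    intro m
    have h1 := hact ((g1 : TAut X).actInv (pre ξ m))
    rw [TAut.act_actInv, D.nl_act hη hξ] at h1
    rw [TAut.act_mul, h1, TAut.act_actInv]
  obtain ⟨m, hm1, hm2⟩ := D.hK _ (D.G.mul_mem g1.2 g0.2) ξ hξ η hη hray
  refine ⟨m, fun v hv => ?_⟩
  have hpi : D.pi (D.toRec.secL (D.a g0 * D.nl η γ ξ * D.a g1) v) = 1 := by
    rw [Rec.pi_secL, h]; rfl
  rw [Rec.secL_mul, Rec.secL_mul, D.secL_a, D.secL_a, D.pi_a] at hpi ⊢
  have hlen : ((g1 : TAut X).act v).length = m := by rw [TAut.length_act, hv]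
  by_cases hu : (g1 : TAut X).act v = pre ξ ((g1 : TAut X).act v).length
  · rw [hlen] at hu
    rw [hu, D.nl_act hη hξ, D.nl_secL_same hη hξ, ← hm1] at hpi ⊢
    have hv2 : (g0 : TAut X).act (pre η m) = v := by
      have := hact v
      rwa [hu, D.nl_act hη hξ] at this
    set ζ := shift^[m] ξ with hζ
    set p : D.G := ⟨(g0 : TAut X).sec (pre η m), D.G_sec g0.2 _⟩ with hp
    set q : D.G := ⟨(g1 : TAut X).sec v, D.G_sec g1.2 v⟩ with hq
    set γ' : D.C := ⟨(γ : TAut X).sec (List.replicate m D.x0), D.C_sec γ.2 m⟩ with hγ'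
    have hζΞ : ζ ∈ D.Ξ := D.Ξ_iter hξ m
    have hqp : (q : TAut X) * p = ((g1 : TAut X) * g0).sec (pre η m) := by
      rw [TAut.sec_mul, hv2]
    rw [map_mul, map_mul, D.pi_a, D.pi_a, D.pi_nl hζΞ hζΞ] at hpi
    rcases hm2 with he | ⟨hc, he⟩
    · rw [← hqp] at he
      have h1 : tau D.x0 ζ * γ' * (tau D.x0 ζ)⁻¹ = ((q : TAut X) * p)⁻¹ := by
        have h2 : tau D.x0 ζ * γ' * (tau D.x0 ζ)⁻¹ = (p : TAut X)⁻¹ * 1 * (q : TAut X)⁻¹ := by
          rw [← hpi]; group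
        rw [h2]; group
      rw [he, inv_one] at h1
      have h2 : (γ' : TAut X) = 1 := by
        have h3 : (γ' : TAut X) = (tau D.x0 ζ)⁻¹ * (tau D.x0 ζ * γ' * (tau D.x0 ζ)⁻¹) *
          tau D.x0 ζ := by group
        rw [h3, h1]; group
      have h3 : γ' = 1 := Subtype.ext h2
      have h4 : p * q = 1 := by
        apply Subtype.ext
        have : (q : TAut X) * p = 1 := he
        exact mul_eq_one_comm.1 this
      unfold nl
      rw [h3, map_one, mul_one, mul_inv_cancel, mul_one, ← map_mul, h4, map_one]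
    · rw [← hqp] at he
      rw [← hm1] at hc
      rw [hc, tau_const, one_mul, inv_one, mul_one] at hpi
      have h1 : (γ' : TAut X) = ((q : TAut X) * p)⁻¹ := by
        have h2 : (γ' : TAut X) = (p : TAut X)⁻¹ * ((p : TAut X) * γ' * q) * (q : TAut X)⁻¹ := by
          group
        rw [h2, hpi]; group
      have h2 : (γ' : TAut X) ∈ D.E := by rw [h1]; exact D.E.inv_mem he
      have h3 : D.c γ' = D.a ⟨γ', D.hEG h2⟩ := (D.aE γ' h2).symm
      unfold nl
      rw [hc, D.t0, one_mul, inv_one, mul_one, h3, ← map_mul, ← map_mul]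
      have h4 : p * ⟨γ', D.hEG h2⟩ * q = 1 := by
        apply Subtype.ext
        show (p : TAut X) * γ' * q = 1
        rw [h1]; group
      rw [h4, map_one]
  · obtain ⟨g', hg'⟩ := D.nl_secL_ne hη hξ γ hu
    rw [hg', ← map_mul, ← map_mul] at hpi ⊢
    exact a_eq_one hpi

/-- Two directed letters: the number of directed letters can be reduced. -/
theorem reduce {k : ℕ} {w : L} (h : D.Wd k w) {η1 ξ1 η2 ξ2 : ℕ → X} (hη1 : η1 ∈ D.Ξ)
    (hξ1 : ξ1 ∈ D.Ξ) (hη2 : η2 ∈ D.Ξ) (hξ2 : ξ2 ∈ D.Ξ) (γ1 γ2 : D.C) (g1 g2 : D.G) :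
    ∃ m, ∀ v : List X, v.length = m →
      D.Wd (k + 1) (D.toRec.secL
        (w * D.nl η1 γ1 ξ1 * D.a g1 * D.nl η2 γ2 ξ2 * D.a g2) v) := by
  -- the case in which the last directed letter is lost
  have hlost : ∀ v, (g2 : TAut X).act v ≠ pre ξ2 ((g2 : TAut X).act v).length →
      D.Wd (k + 1) (D.toRec.secL
        (w * D.nl η1 γ1 ξ1 * D.a g1 * D.nl η2 γ2 ξ2 * D.a g2) v) := by
    intro v hv
    rw [Rec.secL_mul, Rec.secL_mul, D.secL_a, D.pi_a]
    obtain ⟨g', hg'⟩ := D.nl_secL_ne hη2 hξ2 γ2 hv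
    rw [hg']
    exact (((Wd.step h hη1 hξ1 γ1 g1).secL _).mul_a _).mul_a _
  by_cases hcase : ∀ m, (g1 : TAut X).act (pre η2 m) = pre ξ1 m
  · obtain ⟨m, hm1, hm2⟩ := D.hK _ g1.2 ξ1 hξ1 η2 hη2 hcase
    refine ⟨m, fun v hv => ?_⟩
    by_cases hu : (g2 : TAut X).act v = pre ξ2 ((g2 : TAut X).act v).length
    · rw [TAut.length_act, hv] at hu
      rw [Rec.secL_mul, Rec.secL_mul, Rec.secL_mul, Rec.secL_mul, D.secL_a, D.secL_a, D.pi_a g1,
        D.pi_a g2, hu, D.nl_act hη2 hξ2, hcase, D.nl_act hη1 hξ1, D.nl_secL_same hη1 hξ1,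
        D.nl_secL_same hη2 hξ2, ← hm1]
      rw [← hm1] at hm2
      obtain ⟨γ'', hγ''⟩ := nl_merge (D := D) (η := shift^[m] η1) (ξ := shift^[m] ξ2)
        (ζ := shift^[m] ξ1) ⟨(γ1 : TAut X).sec (List.replicate m D.x0), D.C_sec γ1.2 m⟩
        ⟨(γ2 : TAut X).sec (List.replicate m D.x0), D.C_sec γ2.2 m⟩
        ⟨(g1 : TAut X).sec (pre η2 m), D.G_sec g1.2 _⟩ hm2
      have hassoc : ∀ a b c d e : L, a * b * c * d * e = a * (b * c * d) * e := by
        intro a b c d e; group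
      rw [hassoc, hγ'']
      exact .step (h.secL _) (D.Ξ_iter hη1 m) (D.Ξ_iter hξ2 m) _ _
    · exact hlost v hu
  · push Not at hcase
    obtain ⟨m, hm⟩ := hcase
    refine ⟨m, fun v hv => ?_⟩
    by_cases hu : (g2 : TAut X).act v = pre ξ2 ((g2 : TAut X).act v).length
    · rw [TAut.length_act, hv] at hu
      rw [Rec.secL_mul, Rec.secL_mul, Rec.secL_mul, Rec.secL_mul, D.secL_a, D.secL_a, D.pi_a g1,
        D.pi_a g2, hu, D.nl_act hη2 hξ2, D.nl_secL_same hη2 hξ2]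
      have hne : (g1 : TAut X).act (pre η2 m) ≠ pre ξ1 ((g1 : TAut X).act (pre η2 m)).length := by
        rw [TAut.length_act, length_pre]; exact hm
      obtain ⟨g', hg'⟩ := D.nl_secL_ne hη1 hξ1 γ1 hne
      rw [hg']
      exact .step (((h.secL _).mul_a g').mul_a _) (D.Ξ_iter hη2 m) (D.Ξ_iter hξ2 m) _ _
    · exact hlost v hu

theorem killed [Finite X] : ∀ (k : ℕ) (w : L), D.Wd k w → D.pi w = 1 → D.Killed w := by
  intro k
  induction k with
  | zero =>
    intro w hw h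
    cases hw with
    | base g =>
      refine ⟨0, fun v hv => ?_⟩
      rw [a_eq_one h, Rec.secL_one]
  | succ k ih =>
    intro w hw h
    cases hw with
    | up hw => exact ih w hw h
    | step hw0 hη hξ γ g =>
      cases hw0 with
      | base g0 => exact killed_one hη hξ γ g0 g h
      | up hw1 => exact ih _ (.step hw1 hη hξ γ g) h
      | step hw1 hη1 hξ1 γ1 g1 =>
        obtain ⟨m, hm⟩ := reduce hw1 hη1 hξ1 hη hξ γ1 γ g1 g
        refine Killed.of_level (m := m) (fun v hv => ih _ (hm v hv) ?_)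
        rw [Rec.pi_secL, h]; rfl

/-- The range of the action is in the class. -/
theorem fj [Finite X] (D : KData X L) (hL : FJClass L) : FJClass D.pi.range := by
  have : Nonempty X := ⟨D.x0⟩
  refine D.toRec.fj hL (fun w hw => ?_)
  obtain ⟨k, hk⟩ := exists_Wd (D := D) w
  exact killed k w hk hw

end KData

end Pool.Agent.H8.FJ
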