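import Pool.Agent.H8.FJ.Inst

/-!
# Passing to the sections at a level
-/

namespace Pool.Agent.H8.FJ

open Classical

variable {X : Type}

/-- The tautological recursion. -/
def selfRec (X : Type) : Rec X (TAut X) where
  phi := TAut.dec
  pi := MonoidHom.id _
  compat _ := rfl

theorem selfRec_secL (g : TAut X) (v : List X) : (selfRec X).secL g v = g.sec v := by
  have := (selfRec X).pi_secL g v
  exact this

theorem sec_mem {H : Subgroup (TAut X)} (hH : ∀ g ∈ H, ∀ x, g.sec [x] ∈ H) {g : TAut X}
    (hg : g ∈ H) (v : List X) : g.sec v ∈ H := by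
  induction v generalizing g with
  | nil => exact hg
  | cons x v ih => rw [TAut.sec_cons]; exact ih (hH g hg x)

theorem finite_level (X : Type) [Finite X] (m : ℕ) : Finite {v : List X // v.length = m} := by
  have h1 := List.finite_length_eq X m
  have h2 : Finite {v : List X // v ∈ {l : List X | l.length = m}} := h1.to_subtype
  exact h2

/-- The elements of `K` whose sections at the level `m` are in `H`. -/
def levelSub (H K : Subgroup (TAut X)) (m : ℕ) : Subgroup (TAut X) where
  carrier := {g | g ∈ K ∧ ∀ v : List X, v.length = m → g.sec v ∈ H}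
  one_mem' := ⟨K.one_mem, fun v _ => H.one_mem⟩
  mul_mem' := by
    rintro g h ⟨hg1, hg2⟩ ⟨hh1, hh2⟩
    refine ⟨K.mul_mem hg1 hh1, fun v hv => ?_⟩
    rw [TAut.sec_mul]
    exact H.mul_mem (hg2 _ (by rw [TAut.length_act, hv])) (hh2 v hv)
  inv_mem' := by
    rintro g ⟨hg1, hg2⟩
    refine ⟨K.inv_mem hg1, fun v hv => ?_⟩
    rw [TAut.sec_inv]
    exact H.inv_mem (hg2 _ (by rw [TAut.length_act, hv]))

/-- The level lemma. -/
theorem FJClass.of_level [Finite X] {H K : Subgroup (TAut X)} (hH : ∀ g ∈ H, ∀ x, g.sec [x] ∈ H)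
    (h : FJClass H) (hK : ∀ g ∈ K, ∃ m, ∀ v : List X, v.length = m → g.sec v ∈ H) :
    FJClass K := by
  rcases isEmpty_or_nonempty X with hX | hX
  · have : Subsingleton (TAut X) := by
      constructor
      intro g h
      ext v x
      exact hX.elim x
    have : Finite K := inferInstance
    exact .finite K
  have hmono : ∀ i j, i ≤ j → levelSub H K i ≤ levelSub H K j := by
    rintro i j hij g ⟨hg1, hg2⟩
    refine ⟨hg1, fun v hv => ?_⟩
    rw [← List.take_append_drop i v, ← TAut.sec_sec]
    exact sec_mem hH (hg2 _ (by rw [List.length_take]; omega)) _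
  refine .union (I := ℕ) (fun m => (levelSub H K m).subgroupOf K) ?_ ?_ ?_
  · intro i j hij
    exact Subgroup.comap_mono (hmono i j hij)
  · intro g
    obtain ⟨m, hm⟩ := hK g.1 g.2
    exact ⟨m, Subgroup.mem_subgroupOf.2 ⟨g.2, hm⟩⟩
  · intro m
    have := finite_level X m
    let f : (levelSub H K m).subgroupOf K →* Wr {v : List X // v.length = m} H :=
      { toFun := fun g => ⟨((selfRec X).Phi m g.1.1).perm, fun v => ⟨g.1.1.sec v.1, by
          have := (Subgroup.mem_subgroupOf.1 g.2).2
          exact this v.1 v.2⟩⟩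
        map_one' := by
          refine Wr.ext ?_ (fun v => rfl)
          show ((selfRec X).Phi m 1).perm = 1
          rw [map_one]; rfl
        map_mul' := by
          intro g h
          refine Wr.ext ?_ (fun v => ?_)
          · show ((selfRec X).Phi m (g.1.1 * h.1.1)).perm = _
            rw [map_mul]; rfl
          · apply Subtype.ext
            exact TAut.sec_mul g.1.1 h.1.1 v.1 }
    refine .sub f ?_ h.wr
    intro g g' hgg
    have h1 : (selfRec X).Phi m g.1.1 = (selfRec X).Phi m g'.1.1 := by
      have h0 : (f g).perm = (f g').perm := by rw [hgg]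
      refine Wr.ext h0 (fun v => ?_)
      have h2 : (f g).sec v = (f g').sec v := by rw [hgg]
      have h3 := congrArg Subtype.val h2
      show (selfRec X).secL g.1.1 v.1 = (selfRec X).secL g'.1.1 v.1
      rw [selfRec_secL, selfRec_secL]
      exact h3
    have h2 : g.1.1 * (g'.1.1)⁻¹ ∈ ((selfRec X).Phi m).ker := by
      rw [MonoidHom.mem_ker, map_mul, map_inv, h1, mul_inv_cancel]
    have h3 := (selfRec X).ker_le m h2
    rw [MonoidHom.mem_ker] at h3
    have h4 : g.1.1 * (g'.1.1)⁻¹ = 1 := h3
    exact Subtype.ext (Subtype.ext (mul_inv_eq_one.1 h4))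

end Pool.Agent.H8.FJ
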