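import Pool.Agent.H8.FJ.Bounded

/-!
# Automorphisms of linear type
-/

namespace Pool.Agent.H8.FJ

open Classical

variable {X : Type}

theorem finD_zero {g : TAut X} (hg : g ∈ finD X 0) : g = 1 := by
  ext v : 1
  exact hg v (Nat.zero_le _)

theorem act_base {x0 : X} {c : TAut X} (hc : actRay c (fun _ => x0) = fun _ => x0) (m : ℕ) :
    c.act (List.replicate m x0) = List.replicate m x0 := by
  rw [← pre_const, act_pre, hc]

theorem apply_base {x0 : X} {c : TAut X} (hc : actRay c (fun _ => x0) = fun _ => x0) (m : ℕ) :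
    c (List.replicate m x0) x0 = x0 := by
  have h1 := congrFun hc m
  unfold actRay at h1
  rwa [pre_const] at h1

theorem act_base_append {x0 : X} {c : TAut X} (hc : actRay c (fun _ => x0) = fun _ => x0) (m : ℕ)
    {y : X} (hy : y ≠ x0) :
    ∃ z, z ≠ x0 ∧ c.act (List.replicate m x0 ++ [y]) = List.replicate m x0 ++ [z] := by
  refine ⟨c (List.replicate m x0) y, ?_, ?_⟩
  · intro h
    exact hy ((c (List.replicate m x0)).injective (h.trans (apply_base hc m).symm))
  · rw [TAut.act_append, act_base hc, TAut.act_cons, TAut.act_nil, TAut.sec_apply,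
      List.append_nil]

/-- The automorphisms fixing the base ray with finitely many decorations, all of bounded type. -/
def C1 (x0 : X) : Subgroup (TAut X) where
  carrier := {c | actRay c (fun _ => x0) = (fun _ => x0) ∧ ∃ B : Set (TAut X), B.Finite ∧
    (∀ b ∈ B, b ∈ BT X) ∧ ∀ m, ∀ y, y ≠ x0 → c.sec (List.replicate m x0 ++ [y]) ∈ B}
  one_mem' := by
    refine ⟨rfl, {1}, Set.finite_singleton _, ?_, fun _ _ _ => rfl⟩
    rintro b rfl
    exact (BT X).one_mem
  mul_mem' := by
    rintro g h ⟨hg, B, hB1, hB2, hB3⟩ ⟨hh, B', hB1', hB2', hB3'⟩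
    refine ⟨by rw [actRay_mul, hh, hg], Set.image2 (· * ·) B B', hB1.image2 _ hB1', ?_, ?_⟩
    · rintro _ ⟨b, hb, b', hb', rfl⟩
      exact (BT X).mul_mem (hB2 b hb) (hB2' b' hb')
    · intro m y hy
      rw [TAut.sec_mul]
      obtain ⟨z, hz, hz2⟩ := act_base_append hh m hy
      rw [hz2]
      exact ⟨_, hB3 m z hz, _, hB3' m y hy, rfl⟩
  inv_mem' := by
    rintro g ⟨hg, B, hB1, hB2, hB3⟩
    have hg' := actRay_inv_eq hg
    refine ⟨hg', (fun b => b⁻¹) '' B, hB1.image _, ?_, ?_⟩
    · rintro _ ⟨b, hb, rfl⟩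
      exact (BT X).inv_mem (hB2 b hb)
    · intro m y hy
      rw [TAut.sec_inv]
      obtain ⟨z, hz, hz2⟩ := act_base_append hg' m hy
      rw [hz2]
      exact ⟨_, hB3 m z hz, rfl⟩

theorem C0_le_C1 [Finite X] (x0 : X) : C0 x0 ≤ C1 x0 := by
  rintro c ⟨hc, D, hD⟩
  refine ⟨hc, (finD X D : Set (TAut X)), Set.finite_coe_iff.1 (finite_finD D), ?_, ?_⟩
  · intro b hb
    exact Fin'_le_BT ⟨D, hb⟩
  · intro m y hy
    exact hD.sec_ne (replicate_append_ne x0 m hy [])

theorem C0_le_BT (x0 : X) : C0 x0 ≤ BT X := by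
  rintro c ⟨hc, D, hD⟩
  exact BT_of_Dir hD

/-- The group `C1` is in the class. -/
theorem C1_fj [Finite X] (x0 : X) : FJClass (C1 x0) := by
  refine .of_fg (fun K hK => ?_)
  let K' : Subgroup (TAut X) := K.map (C1 x0).subtype
  have hK' : ∀ c ∈ K', c ∈ C1 x0 := by
    rintro c ⟨c, hc, rfl⟩
    exact c.2
  have hfix : ∀ c ∈ K', actRay c (fun _ => x0) = fun _ => x0 := fun c hc => (hK' c hc).1
  have hdec : ∀ c ∈ K', ∀ m, ∀ y, y ≠ x0 → c.sec (List.replicate m x0 ++ [y]) ∈ BT X := by
    intro c hc m y hy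
    obtain ⟨_, B, _, hB2, hB3⟩ := hK' c hc
    exact hB2 _ (hB3 m y hy)
  have hfg : K'.FG := by
    obtain ⟨S, hS⟩ := hK
    refine ⟨S.image (C1 x0).subtype, ?_⟩
    rw [Finset.coe_image, ← MonoidHom.map_closure, hS]
  obtain ⟨S, hS⟩ := hfg
  have hcl : Subgroup.closure ((↑) ⁻¹' (S : Set (TAut X)) : Set K') = ⊤ := by
    rw [← hS]
    exact Subgroup.closure_closure_coe_preimage
  have hfinS : ((↑) ⁻¹' (S : Set (TAut X)) : Set K').Finite :=
    S.finite_toSet.preimage Subtype.val_injective.injOn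
  have := hfinS.to_subtype
  have hone : ∀ c : K', (Set.range (fun m => deco hfix hdec m c)).Finite := by
    intro c
    obtain ⟨_, B, hB1, hB2, hB3⟩ := hK' c c.2
    let B' : Set (BT X) := insert 1 ((↑) ⁻¹' B)
    have hB' : B'.Finite := (hB1.preimage Subtype.val_injective.injOn).insert _
    have h1 : {f : X → BT X | ∀ x, f x ∈ B'}.Finite := Set.Finite.pi' (fun _ => hB')
    have h2 : ((Set.univ : Set (Equiv.Perm X)) ×ˢ {f : X → BT X | ∀ x, f x ∈ B'}).Finite :=
      Set.finite_univ.prod h1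
    refine (h2.image (fun p => (⟨p.1, p.2⟩ : Wr X (BT X)))).subset ?_
    rintro _ ⟨m, rfl⟩
    refine ⟨((deco hfix hdec m c).perm, (deco hfix hdec m c).sec), ⟨trivial, ?_⟩, rfl⟩
    intro y
    show (if h : y = x0 then _ else _) ∈ B'
    split_ifs with h
    · exact Or.inl rfl
    · exact Or.inr (hB3 m y h)
  have hfin : (Set.range (fun m => fun s : ((↑) ⁻¹' (S : Set (TAut X)) : Set K') =>
      deco hfix hdec m s)).Finite := by
    refine (Set.Finite.pi' (fun s : ((↑) ⁻¹' (S : Set (TAut X)) : Set K') =>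
      hone s.1)).subset ?_
    rintro _ ⟨m, rfl⟩ s
    exact ⟨m, rfl⟩
  obtain ⟨J, hJ, f, hf⟩ := embed_pi _ hcl (deco hfix hdec)
    (fun c hc => deco_injective hfix hdec hc) hfin
  have h3 : FJClass K' := .sub f hf (.pi (FJClass.wr BT_fj) J)
  refine .of_mulEquiv ?_ h3
  exact (K.equivMapOfInjective _ (C1 x0).subtype_injective).symm

/-- The data of degree one. -/
def P1 [Finite X] (x0 : X) : Pre X where
  x0 := x0
  G := BT X
  C := C1 x0
  E := C0 x0
  Ξ := {fun _ => x0}
  hG := BT_sec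
  hC0 c hc := congrFun hc.1 0
  hCx := by
    rintro c ⟨hc1, B, hB1, hB2, hB3⟩
    refine ⟨?_, B, hB1, hB2, ?_⟩
    · have h := shift_actRay c (fun _ => x0)
      rw [hc1, shift_const] at h
      exact h.symm
    · intro m y hy
      exact hB3 (m + 1) y hy
  hCy := by
    rintro c ⟨hc1, B, hB1, hB2, hB3⟩ y hy
    exact hB2 _ (hB3 0 y hy)
  hEG := C0_le_BT x0
  hEC := C0_le_C1 x0
  hEx := (P0 x0).hCx
  hΞ := by
    rintro _ rfl
    exact shift_const x0
  hΞ0 := rfl
  hK := by
    rintro g ⟨D, R, hR, hg⟩ _ rfl _ rfl h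
    have h1 : actRay g (fun _ => x0) = fun _ => x0 := by
      apply pre_inj
      intro n
      rw [← act_pre, h]
    obtain ⟨l, hl⟩ := exists_separating (hR.insert (fun _ => x0))
    have hg' : Near D (insert (fun _ => x0) R) g := hg.mono le_rfl (Set.subset_insert _ _)
    obtain ⟨h2, _⟩ := hg'.level hl
    have h3 := h2 _ (Set.mem_insert _ _)
    rw [shift_iterate_const] at h3
    refine ⟨l + D, rfl, Or.inr ⟨shift_iterate_const _ _, ?_, D, h3⟩⟩
    have h4 := shift_iterate_actRay g (fun _ => x0) (l + D)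
    rw [h1, shift_iterate_const] at h4
    exact h4.symm

theorem P1_fj [Finite X] (x0 : X) : FJClass (P1 x0).H :=
  (P1 x0).fj BT_fj (C1_fj x0) C0_locallyFinite

/-- Directed automorphisms with decorations of bounded type. -/
theorem mem_P1 [Finite X] {g : TAut X} {ξ : ℕ → X} {B : Set (TAut X)} (hB : B.Finite)
    (hB2 : ∀ b ∈ B, b ∈ BT X) (hg : ∀ k x, x ≠ ξ k → g.sec (pre ξ k ++ [x]) ∈ B) (x0 : X) :
    g ∈ (P1 x0).H := by
  have h1 : actRay (tau x0 ξ) (fun _ => x0) = ξ := actRay_tau x0 ξ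
  have h2 : actRay (tau x0 (actRay g ξ)) (fun _ => x0) = actRay g ξ := actRay_tau x0 _
  have ht : ∀ ζ, tau x0 ζ ∈ (P1 x0).H := fun ζ => (P1 x0).G_le (BT_of_Dir (Dir.tau x0 ζ))
  have hc : (tau x0 (actRay g ξ))⁻¹ * g * tau x0 ξ ∈ C1 x0 := by
    refine ⟨by rw [actRay_mul, actRay_mul, h1, actRay_inv_eq h2], B, hB, hB2, ?_⟩
    intro m y hy
    have h3 : (tau x0 ξ).act (List.replicate m x0 ++ [y]) =
        pre ξ m ++ [(tau x0 ξ) (List.replicate m x0) y] := by
      rw [TAut.act_append, tau_act, TAut.act_cons, TAut.act_nil, TAut.sec_apply, List.append_nil]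
    have h4 : (tau x0 ξ) (List.replicate m x0) y ≠ ξ m := by
      intro h
      have h5 : (tau x0 ξ) (List.replicate m x0) x0 = ξ m := by
        have := congrFun h1 m
        unfold actRay at this
        rwa [pre_const] at this
      exact hy (((tau x0 ξ) (List.replicate m x0)).injective (h.trans h5.symm))
    have h5 : (tau x0 ξ).sec (List.replicate m x0 ++ [y]) = 1 :=
      finD_zero ((Dir.tau x0 ξ).sec_ne (replicate_append_ne x0 m hy []))
    have h6 : (tau x0 (actRay g ξ))⁻¹.sec (g.act (pre ξ m ++ [(tau x0 ξ) (List.replicate m x0) y]))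
        = 1 := by
      have h7 := (Dir.tau x0 (actRay g ξ)).inv
      rw [h2] at h7
      refine finD_zero (h7.sec_ne ?_)
      rw [TAut.length_act, List.length_append, length_pre, ← act_pre]
      intro h8
      have h9 := g.act_injective h8
      rw [List.length_singleton, pre_succ_last] at h9
      have h10 := List.append_cancel_left h9
      exact h4 (List.cons.inj h10).1
    rw [TAut.sec_mul, TAut.sec_mul, h3, h5, h6, one_mul, mul_one]
    exact hg m _ h4
  have h4 : g = tau x0 (actRay g ξ) * ((tau x0 (actRay g ξ))⁻¹ * g * tau x0 ξ) *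
      (tau x0 ξ)⁻¹ := by group
  rw [h4]
  exact mul_mem (mul_mem (ht _) ((P1 x0).C_le hc)) (inv_mem (ht _))

/-- Automorphisms of linear type. -/
theorem LinearType.level [Finite X] {g : TAut X} (hg : LinearType g) (x0 : X) :
    ∃ m, ∀ v : List X, v.length = m → g.sec v ∈ (P1 x0).H := by
  obtain ⟨R, hR, ⟨ξ0, hξ0⟩, B, hB, hB2, h⟩ := hg
  obtain ⟨l, hl⟩ := exists_separating hR
  refine ⟨l, fun v hv => ?_⟩
  by_cases hv2 : ∃ ξ ∈ R, v = pre ξ l
  · obtain ⟨ξ, hξ, rfl⟩ := hv2
    refine mem_P1 hB hB2 (ξ := shift^[l] ξ) ?_ x0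
    intro k x hx
    rw [TAut.sec_sec, ← List.append_assoc, ← pre_add]
    apply h ξ hξ
    intro η hη he
    have h1 : η = ξ := by
      apply hl η hη ξ hξ
      have h2 := congrArg (List.take l) he
      rw [pre_take _ (by omega), List.take_append_of_le_length (by rw [length_pre]; omega),
        pre_take _ (by omega)] at h2
      exact h2
    subst h1
    rw [pre_succ_last] at he
    have h3 := (List.cons.inj (List.append_cancel_left he)).1
    apply hx
    rw [← h3, shift_iterate, Nat.add_comm]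
  · -- the longest prefix on one of the rays
    have hex : ∃ n, n ≤ l ∧ ∃ ξ ∈ R, v.take n = pre ξ n := ⟨0, Nat.zero_le _, ξ0, hξ0, rfl⟩
    have hnl : ¬ ∃ ξ ∈ R, v.take l = pre ξ l := by
      rw [List.take_of_length_le hv.le]
      exact hv2
    obtain ⟨n, hn1, hn2, hn3⟩ : ∃ n, n < l ∧ (∃ ξ ∈ R, v.take n = pre ξ n) ∧
        ¬ ∃ ξ ∈ R, v.take (n + 1) = pre ξ (n + 1) := by
      by_contra hcon
      push Not at hcon
      have : ∀ n, n ≤ l → ∃ ξ ∈ R, v.take n = pre ξ n := by
        intro n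
        induction n with
        | zero => exact fun _ => ⟨ξ0, hξ0, rfl⟩
        | succ n ih =>
          intro hn
          obtain ⟨ξ, hξ, h1⟩ := ih (by omega)
          exact hcon n (by omega) ⟨ξ, hξ, h1⟩
      exact hnl (this l le_rfl)
    obtain ⟨ξ, hξ, h1⟩ := hn2
    have hn4 : n < v.length := by omega
    have h2 : v.take (n + 1) = pre ξ n ++ [v[n]] := by
      rw [← h1, List.take_succ_eq_append_getElem hn4]
    have h3 : g.sec (v.take (n + 1)) ∈ BT X := by
      rw [h2]
      apply hB2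
      apply h ξ hξ
      intro η hη he
      exact hn3 ⟨η, hη, by rw [h2, he]⟩
    have h4 : g.sec v ∈ BT X := by
      rw [← List.take_append_drop (n + 1) v, ← TAut.sec_sec]
      exact sec_mem BT_sec h3 _
    exact (P1 x0).G_le h4

/-- The elements of `K` some level of which has sections in `H`. -/
def lev (H : Subgroup (TAut X)) (hH : ∀ g ∈ H, ∀ x, g.sec [x] ∈ H) : Subgroup (TAut X) where
  carrier := {g | ∃ m, ∀ v : List X, v.length = m → g.sec v ∈ H}
  one_mem' := ⟨0, fun _ _ => H.one_mem⟩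
  mul_mem' := by
    rintro g h ⟨m, hg⟩ ⟨n, hh⟩
    have key : ∀ (g : TAut X) (m : ℕ), (∀ v : List X, v.length = m → g.sec v ∈ H) →
        ∀ v : List X, m ≤ v.length → g.sec v ∈ H := by
      intro g m hg v hv
      rw [← List.take_append_drop m v, ← TAut.sec_sec]
      exact sec_mem hH (hg _ (by rw [List.length_take]; omega)) _
    refine ⟨max m n, fun v hv => ?_⟩
    rw [TAut.sec_mul]
    exact H.mul_mem (key g m hg _ (by rw [TAut.length_act, hv]; exact le_max_left _ _))
      (key h n hh _ (by rw [hv]; exact le_max_right _ _))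
  inv_mem' := by
    rintro g ⟨m, hg⟩
    refine ⟨m, fun v hv => ?_⟩
    rw [TAut.sec_inv]
    exact H.inv_mem (hg _ (by rw [TAut.length_act, hv]))

/-- Groups of automorphisms of linear type. -/
theorem FJClass.of_linearType [Finite X] {S : Set (TAut X)} (hS : ∀ g ∈ S, LinearType g)
    {K : Subgroup (TAut X)} (hK : K ≤ Subgroup.closure S) : FJClass K := by
  rcases isEmpty_or_nonempty X with hX | ⟨⟨x0⟩⟩
  · have : Subsingleton (TAut X) := by
      constructor
      intro g h
      ext v x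
      exact hX.elim x
    exact .finite _
  · refine .of_level (fun g hg x => (P1 x0).H_sec hg x) (P1_fj x0) (fun g hg => ?_)
    have h : Subgroup.closure S ≤ lev (P1 x0).H (fun g hg x => (P1 x0).H_sec hg x) := by
      rw [Subgroup.closure_le]
      intro g hg
      exact (hS g hg).level x0
    exact h (hK hg)

end Pool.Agent.H8.FJ
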