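import Pool.Agent.H8.FJ.Ray

/-!
# Locally finite groups of directed automorphisms
-/

namespace Pool.Agent.H8.FJ

open Classical

variable {X : Type}

theorem word_cases (x0 : X) (v : List X) : v = List.replicate v.length x0 ∨
    ∃ m y w, y ≠ x0 ∧ v = List.replicate m x0 ++ y :: w := by
  induction v with
  | nil => exact Or.inl rfl
  | cons x v ih =>
    by_cases hx : x = x0
    · subst hx
      rcases ih with h | ⟨m, y, w, hy, h⟩
      · left
        rw [List.length_cons, List.replicate_succ, ← h]
      · right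
        refine ⟨m + 1, y, w, hy, ?_⟩
        rw [List.replicate_succ, List.cons_append, ← h]
    · exact Or.inr ⟨0, x, v, hx, rfl⟩

theorem replicate_append_ne (x0 : X) (m : ℕ) {y : X} (hy : y ≠ x0) (w : List X) :
    List.replicate m x0 ++ y :: w ≠
      pre (fun _ => x0) (List.replicate m x0 ++ y :: w).length := by
  intro h
  rw [pre_const] at h
  have h1 : y ∈ List.replicate (List.replicate m x0 ++ y :: w).length x0 := by
    rw [← h]; simp
  exact hy (List.eq_of_mem_replicate h1)

/-- The decorations of an element fixing the base ray. -/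
noncomputable def deco {x0 : X} {G K : Subgroup (TAut X)}
    (hK : ∀ c ∈ K, actRay c (fun _ => x0) = fun _ => x0)
    (hKG : ∀ c ∈ K, ∀ m, ∀ y, y ≠ x0 → c.sec (List.replicate m x0 ++ [y]) ∈ G) (m : ℕ) :
    K →* Wr X G where
  toFun c := ⟨(c : TAut X) (List.replicate m x0), fun y =>
    if h : y = x0 then 1 else ⟨(c : TAut X).sec (List.replicate m x0 ++ [y]), hKG c c.2 m y h⟩⟩
  map_one' := by
    refine Wr.ext rfl (fun y => ?_)
    show (if h : y = x0 then _ else _) = _
    split_ifs <;> rfl
  map_mul' g h := by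
    have h0 : (h : TAut X).act (List.replicate m x0) = List.replicate m x0 := by
      rw [← pre_const, act_pre, hK h h.2]
    have hx0 : (h : TAut X) (List.replicate m x0) x0 = x0 := by
      have h1 := congrFun (hK h h.2) m
      unfold actRay at h1
      rwa [pre_const] at h1
    refine Wr.ext ?_ (fun y => ?_)
    · show ((g : TAut X) * h) (List.replicate m x0) = _
      rw [TAut.mul_apply, h0]
      rfl
    · rw [Wr.mul_sec]
      show (if h : y = x0 then _ else _) =
        (if h : (h : TAut X) (List.replicate m x0) y = x0 then _ else _) *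
          (if h : y = x0 then _ else _)
      by_cases hy : y = x0
      · rw [dif_pos hy, dif_pos hy, dif_pos (by rw [hy, hx0]), one_mul]
      · have h2 : (h : TAut X) (List.replicate m x0) y ≠ x0 := by
          intro h3
          exact hy (((h : TAut X) (List.replicate m x0)).injective (h3.trans hx0.symm))
        rw [dif_neg hy, dif_neg hy, dif_neg h2]
        apply Subtype.ext
        show ((g : TAut X) * h).sec (List.replicate m x0 ++ [y]) = _ * _
        rw [TAut.sec_mul, TAut.act_append, h0, TAut.act_cons, TAut.act_nil, TAut.sec_apply,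
          List.append_nil]

theorem deco_injective {x0 : X} {G K : Subgroup (TAut X)}
    (hK : ∀ c ∈ K, actRay c (fun _ => x0) = fun _ => x0)
    (hKG : ∀ c ∈ K, ∀ m, ∀ y, y ≠ x0 → c.sec (List.replicate m x0 ++ [y]) ∈ G) {c : K}
    (h : ∀ m, deco hK hKG m c = 1) : c = 1 := by
  apply Subtype.ext
  ext v : 1
  rcases word_cases x0 v with hv | ⟨m, y, w, hy, hv⟩
  · rw [hv]
    exact congrArg Wr.perm (h v.length)
  · have h1 : (deco hK hKG m c).sec y = 1 := by rw [h m]; rfl
    have h2 : (deco hK hKG m c).sec y =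
        ⟨(c : TAut X).sec (List.replicate m x0 ++ [y]), hKG c c.2 m y hy⟩ := dif_neg hy
    rw [h2] at h1
    have h3 := congrArg Subtype.val h1
    have h4 := congrFun h3 w
    rw [hv]
    have h5 : (c : TAut X).sec (List.replicate m x0 ++ [y]) w =
        (c : TAut X) (List.replicate m x0 ++ y :: w) := by
      rw [TAut.sec_apply, List.append_assoc]; rfl
    rw [← h5]
    exact h4

/-- A finitely generated group with a jointly injective family of homomorphisms which take
finitely many values on the generators. -/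
theorem embed_pi {K F ι : Type} [Group K] [Group F] (S : Set K) (hS : Subgroup.closure S = ⊤)
    (κ : ι → (K →* F)) (hinj : ∀ c, (∀ i, κ i c = 1) → c = 1)
    (hfin : (Set.range (fun i => fun s : S => κ i s)).Finite) :
    ∃ J : Type, Finite J ∧ ∃ f : K →* (J → F), Function.Injective f := by
  have hfin2 : (Set.range κ).Finite := by
    have h1 : Set.InjOn (fun f : K →* F => fun s : S => f s) (Set.range κ) := by
      intro f _ g _ hfg
      apply MonoidHom.eq_of_eqOn_dense hS
      intro s hs
      exact congrFun hfg ⟨s, hs⟩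
    have h2 : ((fun f : K →* F => fun s : S => f s) '' Set.range κ).Finite := by
      rw [← Set.range_comp]
      exact hfin
    exact Set.Finite.of_finite_image h2 h1
  refine ⟨Set.range κ, hfin2.to_subtype,
    { toFun := fun c j => j.1 c
      map_one' := by funext j; exact map_one _
      map_mul' := fun a b => by funext j; exact map_mul _ _ _ }, ?_⟩
  rw [injective_iff_map_eq_one]
  intro c hc
  apply hinj
  intro i
  exact congrFun hc ⟨κ i, i, rfl⟩

instance finite_Wr {L : Type} [Finite X] [Finite L] : Finite (Wr X L) := by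
  refine Finite.of_injective (fun g : Wr X L => (g.perm, g.sec)) ?_
  intro g h hgh
  simp only [Prod.mk.injEq] at hgh
  exact Wr.ext hgh.1 (fun x => congrFun hgh.2 x)

/-- The elements of `C0` of width at most `D`. -/
def C0D (x0 : X) (D : ℕ) : Subgroup (TAut X) where
  carrier := {c | actRay c (fun _ => x0) = (fun _ => x0) ∧ Dir D (fun _ => x0) c}
  one_mem' := ⟨rfl, Dir.one _ _⟩
  mul_mem' := by
    rintro g h ⟨hg1, hg2⟩ ⟨hh1, hh2⟩
    refine ⟨by rw [actRay_mul, hh1, hg1], Dir.mul ?_ hh2⟩
    rw [hh1]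
    exact hg2
  inv_mem' := by
    rintro g ⟨hg1, hg2⟩
    refine ⟨actRay_inv_eq hg1, ?_⟩
    have := hg2.inv
    rwa [hg1] at this

theorem C0_fg {x0 : X} (K : Subgroup (C0 x0)) (hK : K.FG) :
    ∃ D, ∀ c ∈ K, (c : TAut X) ∈ C0D x0 D := by
  obtain ⟨S, hS⟩ := hK
  have h1 : ∀ c : C0 x0, ∃ D, Dir D (fun _ => x0) (c : TAut X) := fun c => c.2.2
  choose f hf using h1
  obtain ⟨D, hD⟩ := (S.finite_toSet.image f).bddAbove
  refine ⟨D, ?_⟩
  have h2 : K ≤ (C0D x0 D).subgroupOf (C0 x0) := by
    rw [← hS, Subgroup.closure_le]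
    intro c hc
    rw [SetLike.mem_coe, Subgroup.mem_subgroupOf]
    exact ⟨c.2.1, (hf c).mono (hD ⟨c, hc, rfl⟩)⟩
  intro c hc
  exact Subgroup.mem_subgroupOf.1 (h2 hc)

/-- `C0` is locally finite. -/
theorem C0_locallyFinite [Finite X] {x0 : X} (K : Subgroup (C0 x0)) (hK : K.FG) : Finite K := by
  obtain ⟨D, hD⟩ := C0_fg K hK
  let K' : Subgroup (TAut X) := K.map (C0 x0).subtype
  have hK' : ∀ c ∈ K', c ∈ C0D x0 D := by
    rintro c ⟨c, hc, rfl⟩
    exact hD c hc
  have hfix : ∀ c ∈ K', actRay c (fun _ => x0) = fun _ => x0 := fun c hc => (hK' c hc).1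
  have hdec : ∀ c ∈ K', ∀ m, ∀ y, y ≠ x0 → c.sec (List.replicate m x0 ++ [y]) ∈ finD X D := by
    intro c hc m y hy
    exact (hK' c hc).2.sec_ne (replicate_append_ne x0 m hy [])
  have hfg : K'.FG := by
    obtain ⟨S, hS⟩ := hK
    refine ⟨S.image (C0 x0).subtype, ?_⟩
    rw [Finset.coe_image, ← MonoidHom.map_closure, hS]
  obtain ⟨S, hS⟩ := hfg
  have hcl : Subgroup.closure ((↑) ⁻¹' (S : Set (TAut X)) : Set K') = ⊤ := by
    rw [← hS]
    exact Subgroup.closure_closure_coe_preimage
  have hfinS : ((↑) ⁻¹' (S : Set (TAut X)) : Set K').Finite :=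
    S.finite_toSet.preimage Subtype.val_injective.injOn
  have := hfinS.to_subtype
  obtain ⟨J, hJ, f, hf⟩ := embed_pi _ hcl (deco hfix hdec) (fun c hc => deco_injective hfix hdec hc)
    (Set.toFinite _)
  have h3 : Finite K' := Finite.of_injective f hf
  exact Finite.of_injective (fun c : K => (⟨c.1.1, c.1, c.2, rfl⟩ : K')) (by
    intro c c' h
    apply Subtype.ext
    apply Subtype.ext
    exact congrArg (fun z : K' => z.1) h)

theorem Fin'_locallyFinite [Finite X] (K : Subgroup (Fin' X)) (hK : K.FG) : Finite K := by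
  obtain ⟨S, hS⟩ := hK
  have h1 : ∀ c : Fin' X, ∃ D, (c : TAut X) ∈ finD X D := fun c => c.2
  choose f hf using h1
  obtain ⟨D, hD⟩ := (S.finite_toSet.image f).bddAbove
  have h2 : K ≤ (finD X D).subgroupOf (Fin' X) := by
    rw [← hS, Subgroup.closure_le]
    intro c hc
    rw [SetLike.mem_coe, Subgroup.mem_subgroupOf]
    exact finD_mono (hD ⟨c, hc, rfl⟩) (hf c)
  have h3 : ∀ c : K, (c.1.1 : TAut X) ∈ finD X D := fun c => Subgroup.mem_subgroupOf.1 (h2 c.2)
  exact Finite.of_injective (fun c : K => (⟨c.1.1, h3 c⟩ : finD X D)) (by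
    intro c c' h
    apply Subtype.ext
    apply Subtype.ext
    exact congrArg (fun z : finD X D => z.1) h)

/-- The data of degree zero. -/
def P0 (x0 : X) : Pre X where
  x0 := x0
  G := Fin' X
  C := C0 x0
  E := ⊥
  Ξ := Set.univ
  hG := Fin'_sec
  hC0 c hc := congrFun hc.1 0
  hCx := by
    rintro c ⟨hc1, D, hc2⟩
    refine ⟨?_, D, ?_⟩
    · have h := shift_actRay c (fun _ => x0)
      rw [hc1, shift_const] at h
      exact h.symm
    · exact hc2.sec 1
  hCy := by
    rintro c ⟨hc1, D, hc2⟩ y hy
    exact ⟨D, hc2.sec_ne (replicate_append_ne x0 0 hy [])⟩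
  hEG := bot_le
  hEC := bot_le
  hEx := by
    intro e he
    rw [Subgroup.mem_bot] at he ⊢
    rw [he]; rfl
  hΞ _ _ := trivial
  hΞ0 := trivial
  hK := by
    rintro g ⟨D, hg⟩ ξ _ η _ h
    have h1 : actRay g η = ξ := by
      apply pre_inj
      intro n
      rw [← act_pre, h]
    have h2 : g.sec (pre η D) = 1 := sec_eq_one_of_finD hg (by rw [length_pre])
    refine ⟨D, ?_, Or.inl h2⟩
    rw [← h1, shift_iterate_actRay, h2, actRay_one]

theorem P0_fj [Finite X] (x0 : X) : FJClass (P0 x0).H :=
  (P0 x0).fj (.of_locallyFinite Fin'_locallyFinite) (.of_locallyFinite C0_locallyFinite) (by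
    intro F _
    have : Subsingleton (P0 x0).E := by
      show Subsingleton (⊥ : Subgroup (TAut X))
      infer_instance
    infer_instance)

end Pool.Agent.H8.FJ
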