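import Pool.Agent.H8.FJ.Level

/-!
# Rays, finitary automorphisms and directed automorphisms
-/

namespace Pool.Agent.H8.FJ

open Classical

variable {X : Type}

theorem pre_prefix (ξ : ℕ → X) {m n : ℕ} (h : m ≤ n) : pre ξ m <+: pre ξ n := by
  obtain ⟨k, rfl⟩ := Nat.exists_eq_add_of_le h
  rw [pre_add]
  exact List.prefix_append _ _

theorem pre_take (ξ : ℕ → X) {m n : ℕ} (h : m ≤ n) : (pre ξ n).take m = pre ξ m := by
  obtain ⟨k, rfl⟩ := Nat.exists_eq_add_of_le h
  rw [pre_add, List.take_left']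
  rw [length_pre]

theorem pre_inj {ξ η : ℕ → X} (h : ∀ n, pre ξ n = pre η n) : ξ = η := by
  funext n
  have h1 : shift^[n] ξ 0 = shift^[n] η 0 := by
    have h2 := h (n + 1)
    rw [pre_add, pre_add, h n] at h2
    have h3 := List.append_cancel_left h2
    rw [pre_succ, pre_succ] at h3
    exact (List.cons.inj h3).1
  rw [shift_iterate, shift_iterate] at h1
  simpa using h1

theorem pre_succ_last (ξ : ℕ → X) (m : ℕ) : pre ξ (m + 1) = pre ξ m ++ [ξ m] := by
  rw [pre_add]
  congr 1
  rw [pre_succ, pre_zero, shift_iterate, Nat.zero_add]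

/-- The action on the rays. -/
def actRay (g : TAut X) (ξ : ℕ → X) : ℕ → X := fun n => g (pre ξ n) (ξ n)

theorem shift_actRay (g : TAut X) (ξ : ℕ → X) :
    shift (actRay g ξ) = actRay (g.sec [ξ 0]) (shift ξ) := rfl

theorem actRay_zero (g : TAut X) (ξ : ℕ → X) : actRay g ξ 0 = g [] (ξ 0) := rfl

theorem act_pre (g : TAut X) (ξ : ℕ → X) (m : ℕ) : g.act (pre ξ m) = pre (actRay g ξ) m := by
  induction m generalizing g ξ with
  | zero => rfl
  | succ m ih => rw [pre_succ, TAut.act_cons, ih, pre_succ, shift_actRay]; rfl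

theorem shift_iterate_actRay (g : TAut X) (ξ : ℕ → X) (m : ℕ) :
    shift^[m] (actRay g ξ) = actRay (g.sec (pre ξ m)) (shift^[m] ξ) := by
  induction m generalizing g ξ with
  | zero => rfl
  | succ m ih =>
    rw [Function.iterate_succ_apply, shift_actRay, ih, Function.iterate_succ_apply, pre_succ,
      TAut.sec_cons g (ξ 0) (pre (shift ξ) m)]

theorem actRay_mul (g h : TAut X) (ξ : ℕ → X) : actRay (g * h) ξ = actRay g (actRay h ξ) := by
  apply pre_inj
  intro n
  rw [← act_pre, ← act_pre, ← act_pre, TAut.act_mul]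

theorem actRay_one (ξ : ℕ → X) : actRay 1 ξ = ξ := rfl

theorem actRay_inv_eq {g : TAut X} {ξ η : ℕ → X} (h : actRay g ξ = η) : actRay g⁻¹ η = ξ := by
  rw [← h, ← actRay_mul, inv_mul_cancel, actRay_one]

theorem actRay_injective (g : TAut X) : Function.Injective (actRay g) := by
  intro ξ η h
  exact (actRay_inv_eq h).symm.trans (actRay_inv_eq rfl)

theorem actRay_tau (x0 : X) (ξ : ℕ → X) : actRay (tau x0 ξ) (fun _ => x0) = ξ := by
  apply pre_inj
  intro n
  rw [← act_pre, pre_const, tau_act]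

/-! ### Finitary automorphisms -/

/-- The automorphisms of depth at most `D`. -/
def finD (X : Type) (D : ℕ) : Subgroup (TAut X) where
  carrier := {g | ∀ v : List X, D ≤ v.length → g v = 1}
  one_mem' := fun _ _ => rfl
  mul_mem' := by
    intro g h hg hh v hv
    rw [TAut.mul_apply, hh v hv, hg _ (by rw [TAut.length_act]; exact hv), mul_one]
  inv_mem' := by
    intro g hg v hv
    rw [TAut.inv_apply, hg _ (by rw [TAut.length_actInv]; exact hv), inv_one]

theorem mem_finD {D : ℕ} {g : TAut X} : g ∈ finD X D ↔ ∀ v : List X, D ≤ v.length → g v = 1 :=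
  Iff.rfl

theorem finD_mono {D D' : ℕ} (h : D ≤ D') : finD X D ≤ finD X D' :=
  fun _ hg v hv => hg v (h.trans hv)

theorem sec_eq_one_of_finD {D : ℕ} {g : TAut X} (hg : g ∈ finD X D) {v : List X}
    (hv : D ≤ v.length) : g.sec v = 1 := by
  ext w : 1
  exact hg _ (by rw [List.length_append]; omega)

theorem finD_sec {D : ℕ} {g : TAut X} (hg : g ∈ finD X D) (v : List X) : g.sec v ∈ finD X D :=
  fun w hw => hg _ (by rw [List.length_append]; omega)

instance finite_finD [Finite X] (D : ℕ) : Finite (finD X D) := by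
  have h1 := List.finite_length_lt X D
  have h2 : Finite {v : List X // v ∈ {l : List X | l.length < D}} := h1.to_subtype
  refine Finite.of_injective
    (fun (g : finD X D) (v : {v : List X // v ∈ {l : List X | l.length < D}}) => g.1 v.1) ?_
  intro g h hgh
  apply Subtype.ext
  ext v : 1
  by_cases hv : v.length < D
  · exact congrFun hgh ⟨v, hv⟩
  · rw [g.2 v (not_lt.1 hv), h.2 v (not_lt.1 hv)]

/-- The finitary automorphisms. -/
def Fin' (X : Type) : Subgroup (TAut X) where
  carrier := {g | ∃ D, g ∈ finD X D}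
  one_mem' := ⟨0, (finD X 0).one_mem⟩
  mul_mem' := by
    rintro g h ⟨D, hg⟩ ⟨D', hh⟩
    exact ⟨max D D', (finD X _).mul_mem (finD_mono (le_max_left _ _) hg)
      (finD_mono (le_max_right _ _) hh)⟩
  inv_mem' := by
    rintro g ⟨D, hg⟩
    exact ⟨D, (finD X D).inv_mem hg⟩

theorem mem_Fin' {g : TAut X} : g ∈ Fin' X ↔ ∃ D, g ∈ finD X D := Iff.rfl

theorem Fin'_sec : ∀ g ∈ Fin' X, ∀ x, g.sec [x] ∈ Fin' X := by
  rintro g ⟨D, hg⟩ x
  exact ⟨D, finD_sec hg _⟩

/-! ### Directed automorphisms -/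

/-- The portrait of `g` is trivial at distance more than `D` from the ray `ξ`. -/
def Dir (D : ℕ) (ξ : ℕ → X) (g : TAut X) : Prop :=
  ∀ v, g v ≠ 1 → ∃ k w, v = pre ξ k ++ w ∧ w.length ≤ D

theorem Dir.mono {D D' : ℕ} (h : D ≤ D') {ξ : ℕ → X} {g : TAut X} (hg : Dir D ξ g) :
    Dir D' ξ g := by
  intro v hv
  obtain ⟨k, w, h1, h2⟩ := hg v hv
  exact ⟨k, w, h1, h2.trans h⟩

theorem Dir.one (D : ℕ) (ξ : ℕ → X) : Dir D ξ 1 := fun _ hv => absurd rfl hv

theorem actInv_pre_append {g : TAut X} {ξ : ℕ → X} {v w : List X} {k : ℕ}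
    (h : g.act v = pre (actRay g ξ) k ++ w) :
    ∃ w', v = pre ξ k ++ w' ∧ w'.length = w.length := by
  have hlen := congrArg List.length h
  rw [TAut.length_act, List.length_append, length_pre] at hlen
  refine ⟨v.drop k, ?_, by rw [List.length_drop]; omega⟩
  have h1 : g.act (v.take k) = pre (actRay g ξ) k := by
    have h2 := h
    rw [← List.take_append_drop k v, TAut.act_append] at h2
    exact (List.append_inj h2 (by rw [TAut.length_act, List.length_take, length_pre]; omega)).1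
  rw [← act_pre] at h1
  rw [← g.act_injective h1, List.take_append_drop]

theorem Dir.mul {D : ℕ} {ξ : ℕ → X} {g h : TAut X} (hg : Dir D (actRay h ξ) g)
    (hh : Dir D ξ h) : Dir D ξ (g * h) := by
  intro v hv
  rw [TAut.mul_apply] at hv
  by_cases h1 : h v = 1
  · rw [h1, mul_one] at hv
    obtain ⟨k, w, h2, h3⟩ := hg _ hv
    obtain ⟨w', h4, h5⟩ := actInv_pre_append h2
    exact ⟨k, w', h4, h5.trans_le h3⟩
  · exact hh v h1

theorem Dir.inv {D : ℕ} {ξ : ℕ → X} {g : TAut X} (hg : Dir D ξ g) :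
    Dir D (actRay g ξ) g⁻¹ := by
  intro v hv
  rw [TAut.inv_apply] at hv
  have hv' : g (g.actInv v) ≠ 1 := fun h => hv (by rw [h, inv_one])
  obtain ⟨k, w, h2, h3⟩ := hg _ hv'
  refine ⟨k, (g.sec (pre ξ k)).act w, ?_, by rw [TAut.length_act]; exact h3⟩
  rw [← act_pre, ← TAut.act_append, ← h2, TAut.act_actInv]

theorem Dir.tau (x0 : X) (ξ : ℕ → X) : Dir 0 (fun _ => x0) (tau x0 ξ) := by
  intro v hv
  refine ⟨v.length, [], ?_, le_rfl⟩
  rw [List.append_nil, pre_const]
  by_contra h
  apply hv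
  unfold FJ.tau
  rw [if_neg h]

theorem Dir.sec {D : ℕ} {ξ : ℕ → X} {g : TAut X} (hg : Dir D ξ g) (m : ℕ) :
    Dir D (shift^[m] ξ) (g.sec (pre ξ m)) := by
  intro v hv
  rw [TAut.sec_apply] at hv
  obtain ⟨k, w, h1, h2⟩ := hg _ hv
  rcases le_or_gt m k with h | h
  · obtain ⟨j, rfl⟩ := Nat.exists_eq_add_of_le h
    rw [pre_add, List.append_assoc] at h1
    exact ⟨j, w, List.append_cancel_left h1, h2⟩
  · have hlen := congrArg List.length h1
    rw [List.length_append, List.length_append, length_pre, length_pre] at hlen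
    exact ⟨0, v, rfl, by omega⟩

theorem Dir.sec_ne {D : ℕ} {ξ : ℕ → X} {g : TAut X} (hg : Dir D ξ g) {u : List X}
    (hu : u ≠ pre ξ u.length) : g.sec u ∈ finD X D := by
  intro v hv
  by_contra hne
  rw [TAut.sec_apply] at hne
  obtain ⟨k, w, h1, h2⟩ := hg _ hne
  have hlen := congrArg List.length h1
  rw [List.length_append, List.length_append, length_pre] at hlen
  have hk : u.length ≤ k := by omega
  apply hu
  have h3 := congrArg (List.take u.length) h1
  rw [List.take_left', List.take_append_of_le_length (by rw [length_pre]; exact hk),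
    pre_take _ hk] at h3
  · exact h3
  · rfl

/-- The directed automorphisms fixing the base ray. -/
def C0 (x0 : X) : Subgroup (TAut X) where
  carrier := {c | actRay c (fun _ => x0) = (fun _ => x0) ∧ ∃ D, Dir D (fun _ => x0) c}
  one_mem' := ⟨rfl, 0, Dir.one _ _⟩
  mul_mem' := by
    rintro g h ⟨hg1, D, hg2⟩ ⟨hh1, D', hh2⟩
    refine ⟨by rw [actRay_mul, hh1, hg1], max D D', ?_⟩
    refine Dir.mul ?_ (hh2.mono (le_max_right _ _))
    rw [hh1]
    exact hg2.mono (le_max_left _ _)
  inv_mem' := by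
    rintro g ⟨hg1, D, hg2⟩
    refine ⟨actRay_inv_eq hg1, D, ?_⟩
    have := hg2.inv
    rwa [hg1] at this

theorem mem_C0 {x0 : X} {c : TAut X} :
    c ∈ C0 x0 ↔ actRay c (fun _ => x0) = (fun _ => x0) ∧ ∃ D, Dir D (fun _ => x0) c := Iff.rfl

end Pool.Agent.H8.FJ
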