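import Pool.Agent.H8.FJ.Tree
import Pool.Agent.H8.FJ.Class

/-!
# Abstract wreath recursions
-/

namespace Pool.Agent.H8.FJ

/-- Wreath products with symmetric groups of finite sets. -/
theorem FJClass.wr {Y L : Type} [Group L] [Finite Y] (h : FJClass L) : FJClass (Wr Y L) := by
  let p : Wr Y L →* Equiv.Perm Y :=
    { toFun := fun g => g.perm, map_one' := rfl, map_mul' := fun _ _ => rfl }
  have hfin : p.ker.FiniteIndex := by
    have : Finite (Equiv.Perm Y) := inferInstance
    exact Subgroup.finiteIndex_ker p
  refine .fi p.ker hfin ?_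
  refine .sub (G := Y → L)
    { toFun := fun g x => g.1.sec x
      map_one' := rfl
      map_mul' := fun g h => by
        funext x
        have hh : h.1.perm = 1 := h.2
        simp [hh] } ?_ (.pi h Y)
  intro g h hgh
  apply Subtype.ext
  have hg : g.1.perm = 1 := g.2
  have hh : h.1.perm = 1 := h.2
  exact Wr.ext (hg.trans hh.symm) (fun x => congrFun hgh x)

/-- A group with a wreath recursion and a compatible action on the tree. -/
structure Rec (X L : Type) [Group L] where
  /-- the recursion -/
  phi : L →* Wr X L
  /-- the action -/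
  pi : L →* TAut X
  compat : ∀ w, TAut.dec (pi w) = Wr.map pi (phi w)

namespace Rec

variable {X L : Type} [Group L] (R : Rec X L)

/-- Iterated sections. -/
def secL (w : L) : List X → L
  | [] => w
  | x :: v => secL ((R.phi w).sec x) v

@[simp] theorem secL_nil (w : L) : R.secL w [] = w := rfl

theorem secL_cons (w : L) (x : X) (v : List X) :
    R.secL w (x :: v) = R.secL ((R.phi w).sec x) v := rfl

theorem phi_perm (w : L) : (R.phi w).perm = R.pi w [] :=
  (congrArg Wr.perm (R.compat w)).symm

theorem pi_sec1 (w : L) (x : X) : R.pi ((R.phi w).sec x) = (R.pi w).sec [x] :=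
  (congrFun (congrArg Wr.sec (R.compat w)) x).symm

theorem pi_secL (w : L) (v : List X) : R.pi (R.secL w v) = (R.pi w).sec v := by
  induction v generalizing w with
  | nil => rfl
  | cons x v ih => rw [secL_cons, ih, pi_sec1, ← TAut.sec_cons]

theorem secL_append (w : L) (v u : List X) : R.secL w (v ++ u) = R.secL (R.secL w v) u := by
  induction v generalizing w with
  | nil => rfl
  | cons x v ih => rw [List.cons_append, secL_cons, ih, secL_cons]

@[simp] theorem secL_one (v : List X) : R.secL 1 v = 1 := by
  induction v with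
  | nil => rfl
  | cons x v ih => rw [secL_cons, map_one, Wr.one_sec, ih]

theorem secL_mul (w w' : L) (v : List X) :
    R.secL (w * w') v = R.secL w ((R.pi w').act v) * R.secL w' v := by
  induction v generalizing w w' with
  | nil => rfl
  | cons x v ih =>
    rw [secL_cons, map_mul, Wr.mul_sec, ih, pi_sec1, phi_perm, TAut.act_cons, secL_cons,
      secL_cons]

theorem secL_inv (w : L) (v : List X) :
    R.secL w⁻¹ v = (R.secL w ((R.pi w⁻¹).act v))⁻¹ := by
  rw [eq_inv_iff_mul_eq_one, mul_eq_one_iff_eq_inv, eq_inv_iff_mul_eq_one]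
  have h : R.secL (w * w⁻¹) v = 1 := by rw [mul_inv_cancel, secL_one]
  rw [secL_mul] at h
  exact mul_eq_one_comm.1 h

/-- The recursion to the level `m`. -/
def Phi (m : ℕ) : L →* Wr {v : List X // v.length = m} L where
  toFun w := ⟨{ toFun := fun v => ⟨(R.pi w).act v.1, by rw [TAut.length_act, v.2]⟩
                invFun := fun v => ⟨(R.pi w).actInv v.1, by rw [TAut.length_actInv, v.2]⟩
                left_inv := fun v => Subtype.ext (TAut.actInv_act _ _)
                right_inv := fun v => Subtype.ext (TAut.act_actInv _ _) },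
              fun v => R.secL w v.1⟩
  map_one' := by
    refine Wr.ext ?_ (fun v => ?_)
    · ext v : 2
      simp
    · simp
  map_mul' w w' := by
    refine Wr.ext ?_ (fun v => ?_)
    · ext v : 2
      simp [TAut.act_mul]
    · exact R.secL_mul w w' v.1

theorem mem_ker_Phi {m : ℕ} {w : L} : w ∈ (R.Phi m).ker ↔
    ∀ v : List X, v.length = m → (R.pi w).act v = v ∧ R.secL w v = 1 := by
  rw [MonoidHom.mem_ker]
  constructor
  · intro h v hv
    refine ⟨?_, ?_⟩
    · have h1 := congrArg Wr.perm h
      have h2 := congrArg (fun p : Equiv.Perm {v : List X // v.length = m} => (p ⟨v, hv⟩).1) h1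
      exact h2
    · exact congrFun (congrArg Wr.sec h) ⟨v, hv⟩
  · intro h
    refine Wr.ext ?_ (fun v => (h v.1 v.2).2)
    ext v : 2
    exact (h v.1 v.2).1

theorem ker_mono {m n : ℕ} (hmn : m ≤ n) : (R.Phi m).ker ≤ (R.Phi n).ker := by
  intro w hw
  rw [mem_ker_Phi] at hw ⊢
  intro v hv
  obtain ⟨h1, h2⟩ := hw (v.take m) (by rw [List.length_take]; omega)
  have hv2 : v.take m ++ v.drop m = v := List.take_append_drop m v
  constructor
  · conv_lhs => rw [← hv2]
    rw [TAut.act_append, h1, ← R.pi_secL, h2, map_one, TAut.act_one, hv2]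
  · rw [← hv2, secL_append, h2, secL_one]

theorem ker_le [Nonempty X] (m : ℕ) : (R.Phi m).ker ≤ R.pi.ker := by
  intro w hw
  rw [MonoidHom.mem_ker]
  apply TAut.eq_of_act
  intro v
  rw [TAut.act_one]
  rcases le_or_gt m v.length with h | h
  · exact ((R.mem_ker_Phi.1 (R.ker_mono h hw)) v rfl).1
  · obtain ⟨x⟩ := ‹Nonempty X›
    have h1 := ((R.mem_ker_Phi.1 hw) (v ++ List.replicate (m - v.length) x)
      (by simp; omega)).1
    rw [TAut.act_append] at h1
    exact (List.append_inj h1 (by simp)).1

/-- The group is in the class if the elements acting trivially are killed by the recursion. -/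
theorem fj [Finite X] [Nonempty X] (hL : FJClass L)
    (hkill : ∀ w, R.pi w = 1 → ∃ m, ∀ v : List X, v.length = m → R.secL w v = 1) :
    FJClass R.pi.range := by
  refine .of_mulEquiv (QuotientGroup.quotientKerEquivRange R.pi) ?_
  refine .quot (I := ℕ) (fun m => (R.Phi m).ker) (fun m => inferInstance)
    (fun i j hij => R.ker_mono hij) R.pi.ker (fun m => R.ker_le m) ?_ ?_
  · intro w hw
    rw [MonoidHom.mem_ker] at hw
    obtain ⟨m, hm⟩ := hkill w hw
    refine ⟨m, R.mem_ker_Phi.2 (fun v hv => ⟨?_, hm v hv⟩)⟩
    rw [hw, TAut.act_one]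
  · intro m
    have : Finite {v : List X // v.length = m} := by
      have : (Set.univ : Set {v : List X // v.length = m}).Finite := by
        have h1 := List.finite_length_eq X m
        have h2 : Finite {v : List X // v ∈ {l : List X | l.length = m}} := h1.to_subtype
        have h3 : Finite {v : List X // v.length = m} := h2
        exact Set.toFinite _
      exact Set.finite_univ_iff.1 this
    exact .sub (QuotientGroup.kerLift (R.Phi m)) (QuotientGroup.kerLift_injective _) hL.wr

end Rec

end Pool.Agent.H8.FJ
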