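import Mathlib

/-!
# Automorphisms of the regular rooted tree

The vertices of the tree are the words over `X`.  An automorphism is given by its portrait, the
family of the permutations of `X` at the vertices.
-/

namespace Pool.Agent.H8.FJ

/-- The automorphisms of the rooted tree of the words over `X`, given by their portraits:
`g v` is the permutation of the letters at the vertex `v`. -/
def TAut (X : Type) : Type := List X → Equiv.Perm X

namespace TAut

variable {X : Type}

@[ext] theorem ext {g h : TAut X} (H : ∀ v, g v = h v) : g = h := funext H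

/-- The section (state) of `g` at the vertex `v`. -/
def sec (g : TAut X) (v : List X) : TAut X := fun w => g (v ++ w)

/-- The action on the vertices. -/
def act : TAut X → List X → List X
  | _, [] => []
  | g, x :: v => g [] x :: act (g.sec [x]) v

/-- The inverse of the action on the vertices. -/
def actInv : TAut X → List X → List X
  | _, [] => []
  | g, x :: v => (g [])⁻¹ x :: actInv (g.sec [(g [])⁻¹ x]) v

@[simp] theorem sec_apply (g : TAut X) (v w : List X) : g.sec v w = g (v ++ w) := rfl

@[simp] theorem sec_nil (g : TAut X) : g.sec [] = g := rfl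

theorem sec_sec (g : TAut X) (v w : List X) : (g.sec v).sec w = g.sec (v ++ w) := by
  ext u : 1
  simp [List.append_assoc]

theorem sec_cons (g : TAut X) (x : X) (v : List X) : g.sec (x :: v) = (g.sec [x]).sec v := by
  rw [sec_sec]; rfl

@[simp] theorem act_nil (g : TAut X) : g.act [] = [] := rfl

theorem act_cons (g : TAut X) (x : X) (v : List X) :
    g.act (x :: v) = g [] x :: (g.sec [x]).act v := rfl

@[simp] theorem actInv_nil (g : TAut X) : g.actInv [] = [] := rfl

theorem actInv_cons (g : TAut X) (x : X) (v : List X) :
    g.actInv (x :: v) = (g [])⁻¹ x :: (g.sec [(g [])⁻¹ x]).actInv v := rfl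

@[simp] theorem length_act (g : TAut X) (v : List X) : (g.act v).length = v.length := by
  induction v generalizing g with
  | nil => rfl
  | cons x v ih => simp [act_cons, ih]

@[simp] theorem length_actInv (g : TAut X) (v : List X) : (g.actInv v).length = v.length := by
  induction v generalizing g with
  | nil => rfl
  | cons x v ih => simp [actInv_cons, ih]

theorem act_actInv (g : TAut X) (v : List X) : g.act (g.actInv v) = v := by
  induction v generalizing g with
  | nil => rfl
  | cons x v ih => simp [actInv_cons, act_cons, ih]

theorem actInv_act (g : TAut X) (v : List X) : g.actInv (g.act v) = v := by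
  induction v generalizing g with
  | nil => rfl
  | cons x v ih => simp [actInv_cons, act_cons, ih]

theorem act_append (g : TAut X) (v w : List X) :
    g.act (v ++ w) = g.act v ++ (g.sec v).act w := by
  induction v generalizing g with
  | nil => rfl
  | cons x v ih =>
    rw [List.cons_append, act_cons, ih, act_cons, sec_cons g x v, List.cons_append]

instance : One (TAut X) := ⟨fun _ => 1⟩

instance : Mul (TAut X) := ⟨fun g h v => g (h.act v) * h v⟩

instance : Inv (TAut X) := ⟨fun g v => (g (g.actInv v))⁻¹⟩

@[simp] theorem one_apply (v : List X) : (1 : TAut X) v = 1 := rfl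

theorem mul_apply (g h : TAut X) (v : List X) : (g * h) v = g (h.act v) * h v := rfl

theorem inv_apply (g : TAut X) (v : List X) : g⁻¹ v = (g (g.actInv v))⁻¹ := rfl

@[simp] theorem sec_one (v : List X) : (1 : TAut X).sec v = 1 := rfl

@[simp] theorem act_one (v : List X) : (1 : TAut X).act v = v := by
  induction v with
  | nil => rfl
  | cons x v ih => simp [act_cons, ih]

theorem sec_mul (g h : TAut X) (v : List X) : (g * h).sec v = g.sec (h.act v) * h.sec v := by
  ext w : 1
  simp [mul_apply, act_append]

theorem act_mul (g h : TAut X) (v : List X) : (g * h).act v = g.act (h.act v) := by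
  induction v generalizing g h with
  | nil => rfl
  | cons x v ih =>
    rw [act_cons, act_cons h, act_cons g, sec_mul, ih]
    rfl

theorem act_inv (g : TAut X) (v : List X) : g⁻¹.act v = g.actInv v := by
  induction v generalizing g with
  | nil => rfl
  | cons x v ih =>
    rw [act_cons, actInv_cons]
    have h1 : g⁻¹ [] = (g [])⁻¹ := rfl
    have h2 : g⁻¹.sec [x] = (g.sec [(g [])⁻¹ x])⁻¹ := by
      ext w : 1
      rw [sec_apply, inv_apply, inv_apply, sec_apply]
      rfl
    rw [h1, h2, ih]

instance : Group (TAut X) where
  mul_assoc f g h := by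
    ext v : 1
    simp only [mul_apply, act_mul, mul_assoc]
  one_mul g := by
    ext v : 1
    simp [mul_apply]
  mul_one g := by
    ext v : 1
    simp [mul_apply]
  inv_mul_cancel g := by
    ext v : 1
    rw [mul_apply, inv_apply, actInv_act]
    simp

/-- The action of the automorphism group on the vertices. -/
instance : MulAction (TAut X) (List X) where
  smul g v := g.act v
  one_smul v := act_one v
  mul_smul g h v := act_mul g h v

theorem smul_def (g : TAut X) (v : List X) : g • v = g.act v := rfl

theorem act_injective (g : TAut X) : Function.Injective g.act := fun v w h => by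
  rw [← actInv_act g v, h, actInv_act]

theorem sec_inv (g : TAut X) (v : List X) : g⁻¹.sec v = (g.sec (g⁻¹.act v))⁻¹ := by
  rw [eq_inv_iff_mul_eq_one]
  have h : (g⁻¹ * g).sec (g⁻¹.act v) = 1 := by rw [inv_mul_cancel]; rfl
  rw [sec_mul] at h
  rwa [← act_mul, mul_inv_cancel, act_one] at h

/-- Faithfulness of the action. -/
theorem eq_of_act {g h : TAut X} (H : ∀ v, g.act v = h.act v) : g = h := by
  ext v x
  have h1 := H (v ++ [x])
  rw [act_append, act_append, H v] at h1
  have h2 := List.append_cancel_left h1
  simpa [act_cons] using h2

/-- Every length and prefix preserving permutation of the words is the action of a portrait. -/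
theorem exists_act (f : Equiv.Perm (List X)) (hlen : ∀ v, (f v).length = v.length)
    (hpre : ∀ v w, f v <+: f (v ++ w)) : ∃ g : TAut X, ∀ v, g.act v = f v := by
  have h1 : ∀ v x, ∃ y, f (v ++ [x]) = f v ++ [y] := by
    intro v x
    obtain ⟨w, hw⟩ := hpre v [x]
    have h2 := congrArg List.length hw
    rw [List.length_append, hlen, hlen, List.length_append, List.length_singleton] at h2
    obtain ⟨y, hy⟩ := List.length_eq_one_iff.1 (show w.length = 1 by omega)
    exact ⟨y, by rw [← hw, hy]⟩
  choose p hp using h1
  have hinj : ∀ v, Function.Injective (p v) := by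
    intro v x y hxy
    have h2 : f (v ++ [x]) = f (v ++ [y]) := by rw [hp, hp, hxy]
    have h3 := List.append_cancel_left (f.injective h2)
    exact (List.cons.inj h3).1
  have hsurj : ∀ v, Function.Surjective (p v) := by
    intro v y
    obtain ⟨u, hu⟩ := f.surjective (f v ++ [y])
    have h2 := congrArg List.length hu
    rw [hlen, List.length_append, hlen, List.length_singleton] at h2
    have h3 : u.dropLast ++ [u.getLast (by rintro rfl; simp at h2)] = u :=
      List.dropLast_append_getLast _
    have h4 : f u.dropLast ++ [p u.dropLast (u.getLast (by rintro rfl; simp at h2))] =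
        f v ++ [y] := by rw [← hp, h3, hu]
    have h5 := List.append_inj' h4 rfl
    have h6 := f.injective h5.1
    have h7 := (List.cons.inj h5.2).1
    rw [h6] at h7
    exact ⟨_, h7⟩
  refine ⟨fun v => Equiv.ofBijective (p v) ⟨hinj v, hsurj v⟩, fun v => ?_⟩
  induction v using List.reverseRecOn with
  | nil => rw [act_nil]; exact (List.length_eq_zero_iff.1 (by rw [hlen]; rfl)).symm
  | append_singleton v x ih =>
    rw [act_append, ih, hp, act_cons, act_nil, sec_apply, List.append_nil]
    rfl

end TAut

/-! ### Wreath products -/

/-- The wreath product of `L` with the symmetric group of `X`. -/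
structure Wr (X L : Type) where
  /-- the permutation -/
  perm : Equiv.Perm X
  /-- the sections -/
  sec : X → L

namespace Wr

variable {X L M : Type}

@[ext] theorem ext {g h : Wr X L} (h1 : g.perm = h.perm) (h2 : ∀ x, g.sec x = h.sec x) : g = h := by
  cases g; cases h
  simp only [mk.injEq]
  exact ⟨h1, funext h2⟩

instance [One L] : One (Wr X L) := ⟨⟨1, fun _ => 1⟩⟩
instance [Mul L] : Mul (Wr X L) := ⟨fun g h => ⟨g.perm * h.perm, fun x => g.sec (h.perm x) * h.sec x⟩⟩
instance [Inv L] : Inv (Wr X L) := ⟨fun g => ⟨g.perm⁻¹, fun x => (g.sec (g.perm⁻¹ x))⁻¹⟩⟩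

@[simp] theorem one_perm [One L] : (1 : Wr X L).perm = 1 := rfl
@[simp] theorem one_sec [One L] (x : X) : (1 : Wr X L).sec x = 1 := rfl
@[simp] theorem mul_perm [Mul L] (g h : Wr X L) : (g * h).perm = g.perm * h.perm := rfl
@[simp] theorem mul_sec [Mul L] (g h : Wr X L) (x : X) :
    (g * h).sec x = g.sec (h.perm x) * h.sec x := rfl
@[simp] theorem inv_perm [Inv L] (g : Wr X L) : (g⁻¹).perm = g.perm⁻¹ := rfl
@[simp] theorem inv_sec [Inv L] (g : Wr X L) (x : X) : (g⁻¹).sec x = (g.sec (g.perm⁻¹ x))⁻¹ := rfl

instance [Group L] : Group (Wr X L) where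
  mul_assoc f g h := by
    ext x <;> simp [mul_assoc]
  one_mul g := by ext x <;> simp
  mul_one g := by ext x <;> simp
  inv_mul_cancel g := by ext x <;> simp

/-- Functoriality. -/
def map [Group L] [Group M] (f : L →* M) : Wr X L →* Wr X M where
  toFun g := ⟨g.perm, fun x => f (g.sec x)⟩
  map_one' := by ext x <;> simp
  map_mul' g h := by ext x <;> simp

@[simp] theorem map_perm [Group L] [Group M] (f : L →* M) (g : Wr X L) :
    (map f g).perm = g.perm := rfl
@[simp] theorem map_sec [Group L] [Group M] (f : L →* M) (g : Wr X L) (x : X) :
    (map f g).sec x = f (g.sec x) := rfl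

end Wr

namespace TAut

variable {X : Type}

/-- The wreath recursion. -/
def dec : TAut X →* Wr X (TAut X) where
  toFun g := ⟨g [], fun x => g.sec [x]⟩
  map_one' := rfl
  map_mul' g h := by
    refine Wr.ext rfl (fun x => ?_)
    exact sec_mul g h [x]

@[simp] theorem dec_perm (g : TAut X) : (dec g).perm = g [] := rfl
@[simp] theorem dec_sec (g : TAut X) (x : X) : (dec g).sec x = g.sec [x] := rfl

theorem dec_injective : Function.Injective (dec (X := X)) := by
  intro g h H
  ext v : 1
  cases v with
  | nil => exact congrArg Wr.perm H
  | cons x v =>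
    have h1 : g.sec [x] = h.sec [x] := congrFun (congrArg Wr.sec H) x
    exact congrFun h1 v

end TAut

end Pool.Agent.H8.FJ
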